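import Pool.Agent.helper44.EX.Spec

/-!
# Project ex, part INV: lifting through an injective map
-/

set_option autoImplicit false

open Complex Metric Set Filter Topology MeasureTheory Pool.Agent.helper98.ILF

noncomputable section

namespace EX

theorem INV (h0 : V3.KO0_stmt) : INV_stmt := by
  intro φ ψ Ω Ω' hΩ hΩ' hφ hinj hψ hsub
  have hex : ∀ z ∈ Ω, ∃ a ∈ Ω', φ a = ψ z := fun z hz => hsub (mem_image_of_mem ψ hz)
  set θ : ℂ → ℂ := fun z => Function.invFunOn φ Ω' (ψ z) with hθ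
  have hmem : ∀ z ∈ Ω, θ z ∈ Ω' := fun z hz => Function.invFunOn_mem (hex z hz)
  have heq : ∀ z ∈ Ω, φ (θ z) = ψ z := fun z hz => Function.invFunOn_eq (hex z hz)
  refine ⟨θ, ?_, hmem, heq⟩
  intro z hz
  set a : ℂ := θ z with ha
  have haΩ : a ∈ Ω' := hmem z hz
  have hfa : φ a = ψ z := heq z hz
  have hne : deriv φ a ≠ 0 := h0 φ Ω' hΩ' hφ hinj a haΩ
  have han : AnalyticAt ℂ φ a := hφ.analyticAt (hΩ'.mem_nhds haΩ)
  have hst : HasStrictDerivAt φ (deriv φ a) a := han.hasStrictDerivAt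
  set hF := hst.hasStrictFDerivAt_equiv hne with hhF
  set χ : ℂ → ℂ := hF.localInverse with hχ
  have hχd : HasStrictDerivAt χ (deriv φ a)⁻¹ (φ a) := hst.to_localInverse hne
  have hχa : χ (φ a) = a := hF.localInverse_apply_image
  have hright : ∀ᶠ y in 𝓝 (φ a), φ (χ y) = y := hF.eventually_right_inverse
  have hin : ∀ᶠ y in 𝓝 (φ a), χ y ∈ Ω' := by
    have hc := hχd.hasDerivAt.continuousAt
    apply hc.eventually
    rw [hχa]
    exact hΩ'.mem_nhds haΩ
  have hψd : DifferentiableAt ℂ ψ z := (hψ z hz).differentiableAt (hΩ.mem_nhds hz)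
  have hloc : ∀ᶠ w in 𝓝 z, θ w = χ (ψ w) := by
    have hc : Tendsto ψ (𝓝 z) (𝓝 (φ a)) := by
      rw [hfa]
      exact hψd.continuousAt
    filter_upwards [hc.eventually hright, hc.eventually hin, hΩ.mem_nhds hz] with w h1 h2 h3
    apply hinj (hmem w h3) h2
    rw [heq w h3, h1]
  have hd : DifferentiableAt ℂ (fun w => χ (ψ w)) z := by
    have h1 : DifferentiableAt ℂ χ (ψ z) := by
      rw [← hfa]
      exact hχd.hasDerivAt.differentiableAt
    exact h1.comp z hψd
  have : DifferentiableAt ℂ θ z := hd.congr_of_eventuallyEq hloc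
  exact this.differentiableWithinAt

end EX
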