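import Pool.Agent.helper32.EX.SpecA

/-!
# Row ex:AUT of project ex (MP_561ff4_al): the root elements preserve the bracket and the form
-/

set_option autoImplicit false
set_option linter.unusedVariables false
set_option linter.unusedSectionVars false

namespace Pool.Agent.EX

theorem AUT_xf (hXEF : XEF_stmt) {n : ℕ} (C : Matrix (Fin n) (Fin n) ℤ) [Fact (Dyn C)] (R : Type) [CommRing R]
    (α : Rt C) (t : R) (u : LV C R) :
    xf α t u = u + t • br (ev C α 1) u + t ^ 2 • (fo (ev C α 1) u • ev C α 1) := by
  rw [← hXEF C R α t u, ex, ev_eq α t, br_smul_left, fo_smul_left, smul_smul, smul_smul]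
  congr 2
  ring

theorem AUT (hAUR : AUR_stmt) (hXEF : XEF_stmt) (hJAC : JAC_stmt) (hANT : ANT_stmt) (hINV : INV_stmt)
    (hSQR : SQR_stmt) : AUT_stmt := by
  intro n C _ R _ α t u v
  have hx := AUT_xf hXEF C R α t
  have hsq := hSQR C R α
  have hee : br (ev C α 1) (ev C α (1 : R)) = 0 := (hANT C R (ev C α 1) 0).2
  have hff : fo (ev C α 1) (ev C α (1 : R)) = 0 := by
    rw [fo_ev, ev_snd, if_neg (fun h => neg_ne α h), mul_zero]
  obtain ⟨hA, hB⟩ := hAUR C R α u v
  obtain ⟨e, he⟩ : ∃ e : LV C R, e = ev C α 1 := ⟨_, rfl⟩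
  rw [← he] at hee hff hA hB
  simp only [← he] at hx hsq
  have hfd : ∀ w : LV C R, fo (br e w) e = 0 := by
    intro w
    have h0 : fo w (0 : LV C R) = 0 := by
      have := fo_smul_right (C := C) (0 : R) w 0
      rw [zero_smul, zero_mul] at this
      exact this
    rw [(hANT C R e w).1, fo_neg_left, hINV C R, hee, h0, neg_zero]
  constructor
  · have h1 : br e (br u v) = br (br e u) v + br u (br e v) := by
      have h := hJAC C R e u v
      rw [(hANT C R v e).1, br_neg_right, (hANT C R v (br e u)).1] at h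
      have : br e (br u v) - (br (br e u) v + br u (br e v)) = 0 := by
        rw [← h]; abel
      exact sub_eq_zero.mp this
    have h4 : br (fo e u • e) (fo e v • e) = 0 := by
      rw [br_smul_left, br_smul_right, hee, smul_zero, smul_zero]
    have hu := hx u
    have hv := hx v
    have huv := hx (br u v)
    rw [h1, ← hA] at huv
    obtain ⟨p, hp⟩ : ∃ p : LV C R, p = fo e u • e := ⟨_, rfl⟩
    obtain ⟨q, hq⟩ : ∃ q : LV C R, q = fo e v • e := ⟨_, rfl⟩
    rw [← hp, ← hq] at hB h4 huv
    rw [← hp] at hu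
    rw [← hq] at hv
    have hB' : br p (br e v) = -br (br e u) q := by
      rw [eq_neg_iff_add_eq_zero, add_comm]
      exact hB
    rw [hu, hv, huv]
    simp only [br_add_left, br_add_right, br_smul_left, br_smul_right, h4, hB']
    module
  · rw [hx u, hx v]
    have h1 : fo (br e u) v = -fo u (br e v) := by
      rw [(hANT C R e u).1, fo_neg_left, hINV C R]
    have h2 : fo (br e u) (br e v) = -(2 * fo e v * fo e u) := by
      rw [(hANT C R e u).1, fo_neg_left, hINV C R, hsq, fo_smul_right, fo_comm u e]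
    have h3 : ∀ w : LV C R, fo e (br e w) = 0 := fun w => by rw [fo_comm, hfd w]
    simp only [fo_add_left, fo_add_right, fo_smul_left, fo_smul_right]
    rw [h1, h2, hfd u, h3 v, hff, fo_comm u e]
    ring

end Pool.Agent.EX
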