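import Mathlib

/-!
# MP_bb5cc8_nt, project EX: fingerprints and counting
-/

set_option autoImplicit false

namespace Pool.Agent.EX

open Finset

/-- Fingerprints: a subfamily `F` whose union contains a part of every set of the family `A`. -/
theorem EX_fp {ι : Type} [DecidableEq ι] (A : Finset ι) (w : ι → Finset ℕ) (l : ℝ) (hl : 0 < l)
    (hw : ∀ i ∈ A, 2 * l ≤ ((w i).card : ℝ)) :
    ∃ F ⊆ A, (F.card : ℝ) * l ≤ ((F.biUnion w).card : ℝ) ∧
      ∀ i ∈ A, l ≤ ((w i ∩ F.biUnion w).card : ℝ) := by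
  classical
  have hne : (A.powerset.filter fun F => (F.card : ℝ) * l ≤ ((F.biUnion w).card : ℝ)).Nonempty := by
    refine ⟨∅, ?_⟩
    rw [mem_filter]
    refine ⟨empty_mem_powerset _, ?_⟩
    simp
  obtain ⟨F, hF, hmax⟩ := Finset.exists_max_image _ Finset.card hne
  rw [mem_filter, mem_powerset] at hF
  refine ⟨F, hF.1, hF.2, fun i hi => ?_⟩
  by_contra hcon
  push Not at hcon
  have h1 : i ∉ F := by
    intro h
    have h2 : w i ⊆ F.biUnion w := Finset.subset_biUnion_of_mem w h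
    rw [Finset.inter_eq_left.2 h2] at hcon
    have := hw i hi
    linarith
  have h3 : ((insert i F).biUnion w).card = ((F.biUnion w) ∪ w i).card := by
    rw [Finset.biUnion_insert, Finset.union_comm]
  have h4 : ((F.biUnion w) ∪ w i).card + (w i ∩ F.biUnion w).card = (F.biUnion w).card + (w i).card := by
    rw [Finset.inter_comm]
    exact Finset.card_union_add_card_inter _ _
  have h5 : (((F.biUnion w) ∪ w i).card : ℝ) + ((w i ∩ F.biUnion w).card : ℝ) =
      ((F.biUnion w).card : ℝ) + ((w i).card : ℝ) := by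
    exact_mod_cast h4
  have h6 : insert i F ∈ A.powerset.filter fun F => (F.card : ℝ) * l ≤ ((F.biUnion w).card : ℝ) := by
    rw [mem_filter, mem_powerset]
    refine ⟨Finset.insert_subset hi hF.1, ?_⟩
    rw [h3, Finset.card_insert_of_notMem h1]
    push_cast
    have := hw i hi
    linarith [hF.2]
  have h7 := hmax _ h6
  rw [Finset.card_insert_of_notMem h1] at h7
  omega

theorem EX_small {ι : Type} [DecidableEq ι] (U : Finset ι) (m0 : ℕ) :
    (U.powerset.filter fun F => F.card ≤ m0).card ≤ (U.card + 1) ^ m0 := by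
  have h1 : U.powerset.filter (fun F => F.card ≤ m0) ⊆ (range (m0 + 1)).biUnion fun m => powersetCard m U := by
    intro F hF
    rw [mem_filter, mem_powerset] at hF
    rw [mem_biUnion]
    exact ⟨F.card, mem_range.2 (by omega), mem_powersetCard.2 ⟨hF.1, rfl⟩⟩
  refine (card_le_card h1).trans (card_biUnion_le.trans ?_)
  rw [add_pow]
  refine Finset.sum_le_sum fun m hm => ?_
  rw [card_powersetCard, one_pow, mul_one]
  have h2 : U.card.choose m ≤ U.card ^ m := Nat.choose_le_pow U.card m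
  have h3 : 1 ≤ m0.choose m := Nat.choose_pos (by rw [mem_range] at hm; omega)
  calc U.card.choose m ≤ U.card ^ m * 1 := by rw [mul_one]; exact h2
    _ ≤ U.card ^ m * m0.choose m := Nat.mul_le_mul_left _ h3

theorem EX_count {ι κ : Type} [DecidableEq ι] [DecidableEq κ] (U : Finset ι) (Qs : Finset (Finset κ))
    (M m0 : ℕ) (pr : ι → κ) (T : Finset ι → Finset κ) (B : ℝ)
    (h : ∀ Q ∈ Qs, Q.card = M ∧ ∃ F ⊆ U, F.card ≤ m0 ∧ (F.image pr).card = F.card ∧ F.image pr ⊆ Q ∧
      Q \ F.image pr ⊆ T F)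
    (hB : ∀ F ⊆ U, F.card ≤ m0 → (((T F).card.choose (M - F.card) : ℕ) : ℝ) ≤ B) :
    (Qs.card : ℝ) ≤ ((U.card : ℝ) + 1) ^ m0 * B := by
  set Fs := U.powerset.filter fun F => F.card ≤ m0 with hFs
  have h1 : Qs ⊆ Fs.biUnion fun F => (powersetCard (M - F.card) (T F)).image fun R => F.image pr ∪ R := by
    intro Q hQ
    obtain ⟨hc, F, hFU, hFm, hFc, hFQ, hT⟩ := h Q hQ
    rw [mem_biUnion]
    refine ⟨F, ?_, ?_⟩
    · rw [hFs, mem_filter, mem_powerset]
      exact ⟨hFU, hFm⟩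
    · rw [mem_image]
      refine ⟨Q \ F.image pr, ?_, Finset.union_sdiff_of_subset hFQ⟩
      rw [mem_powersetCard]
      refine ⟨hT, ?_⟩
      rw [card_sdiff_of_subset hFQ, hc, hFc]
  have h2 : (Qs.card : ℝ) ≤ ∑ F ∈ Fs, (((T F).card.choose (M - F.card) : ℕ) : ℝ) := by
    have h3 : Qs.card ≤ ∑ F ∈ Fs, (T F).card.choose (M - F.card) := by
      refine (card_le_card h1).trans (card_biUnion_le.trans (Finset.sum_le_sum fun F _ => ?_))
      refine card_image_le.trans ?_
      rw [card_powersetCard]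
    exact_mod_cast h3
  refine h2.trans ?_
  have h4 : ∑ F ∈ Fs, (((T F).card.choose (M - F.card) : ℕ) : ℝ) ≤ Fs.card * B := by
    rw [← nsmul_eq_mul]
    refine Finset.sum_le_card_nsmul _ _ _ fun F hF => ?_
    rw [hFs, mem_filter, mem_powerset] at hF
    exact hB F hF.1 hF.2
  refine h4.trans ?_
  have hB0 : 0 ≤ B := by
    have := hB ∅ (empty_subset _) (by simp)
    exact le_trans (Nat.cast_nonneg _) this
  refine mul_le_mul_of_nonneg_right ?_ hB0
  exact_mod_cast EX_small U m0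

theorem EX_choose (n k M : ℕ) (t B : ℝ) (hn : (n : ℝ) ≤ t) (hk : M ≤ 2 * k) (hkM : k ≤ M) (hM : 1 ≤ M)
    (hB : 1 ≤ B) (h6 : 6 * t ≤ B * M) : ((n.choose k : ℕ) : ℝ) ≤ B ^ M := by
  have hk1 : 1 ≤ k := by omega
  have hkR : (0 : ℝ) < k := by exact_mod_cast hk1
  have hMR : (0 : ℝ) < M := by exact_mod_cast hM
  have hn0 : (0 : ℝ) ≤ n := Nat.cast_nonneg n
  have ht0 : 0 ≤ t := hn0.trans hn
  have h1 : ((n.choose k : ℕ) : ℝ) ≤ (n : ℝ) ^ k / (k.factorial : ℝ) := Nat.choose_le_pow_div k n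
  have hfac : (0 : ℝ) < (k.factorial : ℝ) := by exact_mod_cast k.factorial_pos
  have h2 : (k : ℝ) ^ k / (k.factorial : ℝ) ≤ Real.exp k := Real.pow_div_factorial_le_exp (k : ℝ) hkR.le k
  have h3 : Real.exp k ≤ 3 ^ k := by
    have e1 : Real.exp (k : ℝ) = Real.exp 1 ^ k := by
      rw [← Real.exp_nat_mul, mul_one]
    rw [e1]
    exact pow_le_pow_left₀ (Real.exp_pos 1).le (by linarith [Real.exp_one_lt_d9]) k
  have h4 : (n : ℝ) ^ k / (k.factorial : ℝ) ≤ (3 * t / k) ^ k := by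
    calc (n : ℝ) ^ k / (k.factorial : ℝ) ≤ t ^ k / (k.factorial : ℝ) := by
          gcongr
      _ = (t / k) ^ k * ((k : ℝ) ^ k / (k.factorial : ℝ)) := by
          rw [div_pow]
          field_simp
      _ ≤ (t / k) ^ k * 3 ^ k := by
          refine mul_le_mul_of_nonneg_left (h2.trans h3) (by positivity)
      _ = (3 * t / k) ^ k := by
          rw [← mul_pow]
          congr 1
          ring
  have h5 : 3 * t / k ≤ B := by
    rw [div_le_iff₀ hkR]
    have h7 : (M : ℝ) ≤ 2 * k := by exact_mod_cast hk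
    have h8 : B * M ≤ B * (2 * k) := mul_le_mul_of_nonneg_left h7 (by linarith)
    nlinarith
  calc ((n.choose k : ℕ) : ℝ) ≤ (3 * t / k) ^ k := h1.trans h4
    _ ≤ B ^ k := pow_le_pow_left₀ (by positivity) h5 k
    _ ≤ B ^ M := pow_le_pow_right₀ hB hkM

end Pool.Agent.EX
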