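import Pool.Agent.helper86.PrimesDyadic

/-!
# MP_bb5cc8_nt, project EX: the number of primes in `[N ^ α, 2 N ^ α)`
-/

set_option autoImplicit false

namespace Pool.Agent.EX

open Filter Pool.Agent.helper86

theorem EX_primesIn : ∀ᶠ n : ℕ in atTop, 0.2 * (n : ℝ) ≤ primesIn n * Real.log (2 * n) := by
  have hb := (isLittleO_log_rpow_atTop (by norm_num : (0 : ℝ) < 1 / 2)).bound
    (by norm_num : (0 : ℝ) < 1 / 10)
  have ht : Tendsto (fun n : ℕ => 2 * (n : ℝ)) atTop atTop :=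
    (tendsto_natCast_atTop_atTop).const_mul_atTop (by norm_num)
  filter_upwards [ht.eventually hb, eventually_ge_atTop 10] with n h2 h3
  have hn : (10 : ℝ) ≤ n := by exact_mod_cast h3
  have hn0 : (0 : ℝ) < n := by linarith
  have hlog : 0 < Real.log (2 * n) := Real.log_pos (by linarith)
  rw [Real.norm_of_nonneg hlog.le, Real.norm_of_nonneg (by positivity)] at h2
  have hmain := primesIn_log n (by omega)
  have hlog4 : (1.38 : ℝ) ≤ Real.log 4 := by
    have : Real.log 4 = 2 * Real.log 2 := by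
      rw [show (4 : ℝ) = 2 ^ 2 by norm_num, Real.log_pow]; norm_num
    have := Real.log_two_gt_d9
    linarith
  have hsq : (2 * (n : ℝ)) ^ (1 / 2 : ℝ) = Real.sqrt (2 * n) := (Real.sqrt_eq_rpow _).symm
  rw [hsq] at h2
  have hsq2 : Real.sqrt (2 * n) * Real.sqrt (2 * n) = 2 * n := Real.mul_self_sqrt (by positivity)
  have hsq0 : 0 ≤ Real.sqrt (2 * n) := Real.sqrt_nonneg _
  have hsq4 : 4 ≤ Real.sqrt (2 * n) := by
    rw [show (4 : ℝ) = Real.sqrt 16 by
      rw [show (16 : ℝ) = 4 ^ 2 by norm_num, Real.sqrt_sq (by norm_num)]]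
    exact Real.sqrt_le_sqrt (by linarith)
  have e1 : Real.sqrt (2 * n) * Real.log (2 * n) ≤ 0.2 * n := by
    calc Real.sqrt (2 * n) * Real.log (2 * n)
        ≤ Real.sqrt (2 * n) * (1 / 10 * Real.sqrt (2 * n)) := by gcongr
      _ = 1 / 10 * (Real.sqrt (2 * n) * Real.sqrt (2 * n)) := by ring
      _ = 0.2 * n := by rw [hsq2]; ring
  have e2 : Real.log n ≤ 0.05 * n := by
    have : Real.log n ≤ Real.log (2 * n) := Real.log_le_log hn0 (by linarith)
    nlinarith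
  nlinarith

/-- At least `c N ^ α / log N` primes. -/
theorem EX_primes (α : ℝ) (hα : 0 < α) (hα1 : α < 1) : ∃ N₀ : ℕ, ∀ N : ℕ, N₀ ≤ N →
    0.05 * (N : ℝ) ^ α ≤ ((dyadicPrimes ((N : ℝ) ^ α)).card : ℝ) * Real.log N := by
  have ht : Tendsto (fun N : ℕ => (N : ℝ) ^ α) atTop atTop :=
    (tendsto_rpow_atTop hα).comp tendsto_natCast_atTop_atTop
  have ht2 : Tendsto (fun N : ℕ => ⌈(N : ℝ) ^ α⌉₊ - 1) atTop atTop :=
    (tendsto_sub_atTop_nat 1).comp (tendsto_nat_ceil_atTop.comp ht)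
  have ht3 : Tendsto (fun N : ℕ => (N : ℝ) ^ (1 - α)) atTop atTop :=
    (tendsto_rpow_atTop (by linarith)).comp tendsto_natCast_atTop_atTop
  obtain ⟨N₀, h0⟩ := eventually_atTop.mp ((ht2.eventually EX_primesIn).and
    ((ht.eventually_ge_atTop 10).and ((ht3.eventually_ge_atTop 4).and (eventually_ge_atTop 2))))
  refine ⟨N₀, fun N hN => ?_⟩
  obtain ⟨h1, h2, h3, h4⟩ := h0 N hN
  set x : ℝ := (N : ℝ) ^ α with hx
  set n : ℕ := ⌈x⌉₊ - 1 with hn
  have hNR : (2 : ℝ) ≤ N := by exact_mod_cast h4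
  have hceil : 1 ≤ ⌈x⌉₊ := Nat.one_le_ceil_iff.mpr (by linarith)
  have hn1 : ((n : ℕ) : ℝ) = (⌈x⌉₊ : ℝ) - 1 := by
    rw [hn, Nat.cast_sub hceil, Nat.cast_one]
  have hxc : x ≤ ⌈x⌉₊ := Nat.le_ceil x
  have hcx : (⌈x⌉₊ : ℝ) < x + 1 := Nat.ceil_lt_add_one (by linarith)
  have hnx : (n : ℝ) < x := by linarith
  have hnx2 : x - 1 ≤ n := by linarith
  have hsub : (Finset.Ioc n (2 * n)).filter Nat.Prime ⊆ dyadicPrimes x := by
    intro p hp
    rw [Finset.mem_filter, Finset.mem_Ioc] at hp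
    rw [mem_dyadicPrimes]
    refine ⟨hp.2, ?_, ?_⟩
    · have h5 : ⌈x⌉₊ ≤ p := by omega
      have h6 : (⌈x⌉₊ : ℝ) ≤ p := by exact_mod_cast h5
      linarith
    · have h5 : (p : ℝ) ≤ 2 * n := by exact_mod_cast hp.1.2
      linarith
  have hcard : (primesIn n : ℝ) ≤ (dyadicPrimes x).card := by
    exact_mod_cast Finset.card_le_card hsub
  have hxN : 2 * x ≤ N := by
    have h5 : (N : ℝ) = x * (N : ℝ) ^ (1 - α) := by
      rw [hx, ← Real.rpow_add (by linarith), add_sub_cancel, Real.rpow_one]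
    have h6 : x * 4 ≤ x * (N : ℝ) ^ (1 - α) := mul_le_mul_of_nonneg_left h3 (by linarith)
    linarith
  have hlog : Real.log (2 * n) ≤ Real.log N := Real.log_le_log (by linarith) (by linarith)
  have hlog0 : 0 ≤ Real.log (2 * n) := Real.log_nonneg (by linarith)
  calc 0.05 * x ≤ 0.2 * (n : ℝ) := by linarith
    _ ≤ primesIn n * Real.log (2 * n) := h1
    _ ≤ (dyadicPrimes x).card * Real.log N := mul_le_mul hcard hlog hlog0 (Nat.cast_nonneg _)

end Pool.Agent.EX
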