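import Pool.Agent.helper49.EX.LS
import Pool.Agent.helper49.EX.FP
import Pool.Agent.helper49.EX.PR

/-!
# MP_bb5cc8_nt, project EX: residue classes in `{1, ..., N}`
-/

set_option autoImplicit false

namespace Pool.Agent.EX

open Finset Pool.Agent.helper86

/-- The elements of `{1, ..., N}` in the class `x.2` modulo `x.1`. -/
def cls (N : ℕ) (x : ℕ × ℕ) : Finset ℕ := (Ioc 0 N).filter fun n => n % x.1 = x.2

theorem EX_cls_card (N p c : ℕ) (hp : 0 < p) (hc : c < p) :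
    (N : ℝ) / p - 1 ≤ ((cls N (p, c)).card : ℝ) := by
  have h1 : cls N (p, c) = (Ioc 0 N).filter fun x => x ≡ c [MOD p] := by
    unfold cls
    ext n
    rw [mem_filter, mem_filter]
    refine and_congr_right fun _ => ?_
    show n % p = c ↔ n % p = c % p
    rw [Nat.mod_eq_of_lt hc]
  have h2 := Nat.Ioc_filter_modEq_card 0 N hp c
  rw [← h1] at h2
  have h3 : (((cls N (p, c)).card : ℤ) : ℝ) =
      ((max (⌊((N : ℚ) - c) / p⌋ - ⌊(((0 : ℕ) : ℚ) - c) / p⌋) 0 : ℤ) : ℝ) := by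
    exact_mod_cast congrArg (fun z : ℤ => (z : ℝ)) h2
  have h4 : ((N : ℚ) - c) / p - 1 < (⌊((N : ℚ) - c) / p⌋ : ℚ) := Int.sub_one_lt_floor _
  have h5 : (⌊(((0 : ℕ) : ℚ) - c) / p⌋ : ℚ) ≤ (((0 : ℕ) : ℚ) - c) / p := Int.floor_le _
  have hpq : (0 : ℚ) < p := by exact_mod_cast hp
  have h6 : (N : ℚ) / p - 1 ≤ ((max (⌊((N : ℚ) - c) / p⌋ - ⌊(((0 : ℕ) : ℚ) - c) / p⌋) 0 : ℤ) : ℚ) := by
    have h7 : ((⌊((N : ℚ) - c) / p⌋ - ⌊(((0 : ℕ) : ℚ) - c) / p⌋ : ℤ) : ℚ) ≤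
        ((max (⌊((N : ℚ) - c) / p⌋ - ⌊(((0 : ℕ) : ℚ) - c) / p⌋) 0 : ℤ) : ℚ) := by
      exact_mod_cast le_max_left _ _
    refine le_trans ?_ h7
    push_cast
    have h8 : ((N : ℚ) - c) / p - (((0 : ℕ) : ℚ) - c) / p = N / p := by
      push_cast
      ring
    push_cast at h5 h8
    linarith
  have h9 : ((N : ℚ) / p - 1 : ℚ) ≤ ((cls N (p, c)).card : ℚ) := by
    refine h6.trans (le_of_eq ?_)
    rw [← h2]
    push_cast
    rfl
  have h10 : (((N : ℚ) / p - 1 : ℚ) : ℝ) ≤ (((cls N (p, c)).card : ℚ) : ℝ) := by exact_mod_cast h9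
  push_cast at h10
  exact h10

/-- The union of a family of classes. -/
def EE (N : ℕ) (A : Finset (ℕ × ℕ)) : Finset ℕ := A.biUnion (cls N)

theorem EX_EE_sub (N : ℕ) (A : Finset (ℕ × ℕ)) : EE N A ⊆ Ioc 0 N := by
  intro n hn
  unfold EE at hn
  obtain ⟨x, -, h⟩ := mem_biUnion.1 hn
  exact (mem_filter.1 h).1

theorem EX_EE_mono (N : ℕ) {F A : Finset (ℕ × ℕ)} (h : F ⊆ A) : EE N F ⊆ EE N A :=
  Finset.biUnion_subset_biUnion_of_subset_left _ h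

theorem EX_cls_inter (N : ℕ) (x : ℕ × ℕ) (F : Finset (ℕ × ℕ)) :
    (cls N x ∩ EE N F).card = cnt (EE N F) x.1 x.2 := by
  unfold cnt
  congr 1
  ext n
  rw [mem_inter, mem_filter]
  constructor
  · rintro ⟨h1, h2⟩
    exact ⟨h2, (mem_filter.1 h1).2⟩
  · rintro ⟨h1, h2⟩
    exact ⟨mem_filter.2 ⟨EX_EE_sub N F h1, h2⟩, h1⟩

/-- The family of classes of a choice `a` on `Q`. -/
def gr (Q : Finset ℕ) (a : (p : ℕ) → ZMod p) : Finset (ℕ × ℕ) := Q.image fun p => (p, (a p).val)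

theorem EX_gr_card (Q : Finset ℕ) (a : (p : ℕ) → ZMod p) : (gr Q a).card = Q.card := by
  unfold gr
  refine Finset.card_image_of_injective _ fun p q h => ?_
  exact (Prod.mk.inj h).1

theorem EX_gr_fst (Q : Finset ℕ) (a : (p : ℕ) → ZMod p) : (gr Q a).image Prod.fst = Q := by
  unfold gr
  rw [Finset.image_image]
  have : (Prod.fst ∘ fun p : ℕ => (p, (a p).val)) = id := rfl
  rw [this, Finset.image_id]

theorem EX_gr_inj (Q : Finset ℕ) (a : (p : ℕ) → ZMod p) (F : Finset (ℕ × ℕ)) (hF : F ⊆ gr Q a) :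
    (F.image Prod.fst).card = F.card := by
  refine Finset.card_image_of_injOn fun x hx y hy h => ?_
  have h1 := hF hx
  have h2 := hF hy
  unfold gr at h1 h2
  obtain ⟨p, -, rfl⟩ := mem_image.1 h1
  obtain ⟨q, -, rfl⟩ := mem_image.1 h2
  simp only at h
  subst h
  rfl

theorem EX_EE_gr (N : ℕ) (Q : Finset ℕ) (hQ : ∀ p ∈ Q, 0 < p) (a : (p : ℕ) → ZMod p) :
    {n : ℕ | 1 ≤ n ∧ n ≤ N ∧ ∃ p ∈ Q, (n : ZMod p) = a p} = (EE N (gr Q a) : Set ℕ) := by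
  ext n
  rw [Finset.mem_coe]
  unfold EE gr
  rw [mem_biUnion]
  constructor
  · rintro ⟨h1, h2, p, hp, h3⟩
    refine ⟨(p, (a p).val), mem_image_of_mem _ hp, ?_⟩
    unfold cls
    rw [mem_filter, mem_Ioc]
    refine ⟨⟨h1, h2⟩, ?_⟩
    have : NeZero p := ⟨(hQ p hp).ne'⟩
    simp only
    rw [← h3, ZMod.val_natCast]
  · rintro ⟨x, hx, h⟩
    obtain ⟨p, hp, rfl⟩ := mem_image.1 hx
    unfold cls at h
    rw [mem_filter, mem_Ioc] at h
    refine ⟨h.1.1, h.1.2, p, hp, ?_⟩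
    have : NeZero p := ⟨(hQ p hp).ne'⟩
    have h2 := h.2
    simp only at h2
    rw [← ZMod.natCast_zmod_val (a p), ZMod.natCast_eq_natCast_iff', h2, Nat.mod_eq_of_lt (ZMod.val_lt _)]

theorem EX_ncard (N : ℕ) (Q : Finset ℕ) (hQ : ∀ p ∈ Q, 0 < p) (a : (p : ℕ) → ZMod p) :
    {n : ℕ | 1 ≤ n ∧ n ≤ N ∧ ∃ p ∈ Q, (n : ZMod p) = a p}.ncard = (EE N (gr Q a)).card := by
  rw [EX_EE_gr N Q hQ a, Set.ncard_coe_finset]

end Pool.Agent.EX
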