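import Pool.Agent.helper85.MT.MLS

/-!
# MP_bb5cc8_nt, project EX: the large sieve for a set of residue classes
-/

set_option autoImplicit false

namespace Pool.Agent.EX

open Finset Pool.Agent.helper85.BVP Pool.Agent.helper85.MT

/-- The number of elements of `E` in the class `c` modulo `p`. -/
def cnt (E : Finset ℕ) (p c : ℕ) : ℕ := (E.filter fun n => n % p = c).card

theorem EX_sum_cnt (E : Finset ℕ) (p : ℕ) (hp : 0 < p) : ∑ c ∈ range p, cnt E p c = E.card := by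
  unfold cnt
  rw [← Finset.card_biUnion]
  · congr 1
    ext n
    simp only [mem_biUnion, mem_range, mem_filter]
    constructor
    · rintro ⟨c, _, h, _⟩
      exact h
    · intro h
      exact ⟨n % p, Nat.mod_lt _ hp, h, rfl⟩
  · intro c _ c' _ hne
    rw [Function.onFun, Finset.disjoint_left]
    intro n h1 h2
    rw [mem_filter] at h1 h2
    exact hne (h1.2.symm.trans h2.2)

theorem EX_zmod_sum (p : ℕ) [NeZero p] (F : ZMod p → ℝ) :
    ∑ a : ZMod p, F a = ∑ c ∈ range p, F (c : ZMod p) := by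
  symm
  refine Finset.sum_bij (fun b _ => (b : ZMod p)) (fun _ _ => mem_univ _) ?_ ?_ (fun _ _ => rfl)
  · intro b hb b' hb' h
    rw [mem_range] at hb hb'
    have := (ZMod.natCast_eq_natCast_iff' b b' p).mp h
    rwa [Nat.mod_eq_of_lt hb, Nat.mod_eq_of_lt hb'] at this
  · intro x _
    exact ⟨x.val, mem_range.mpr (ZMod.val_lt x), ZMod.natCast_zmod_val x⟩

theorem EX_var (E : Finset ℕ) (p : ℕ) (hp : p.Prime) :
    (p : ℝ) * ∑ c ∈ range p, ((cnt E p c : ℝ) - E.card / p) ^ 2 =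
      ∑ b ∈ (range p).filter (fun b => Nat.Coprime b p),
        ‖∑ n ∈ E, ex ((n : ℝ) * ((b : ℝ) / p))‖ ^ 2 := by
  classical
  have hp0 : 0 < p := hp.pos
  have : NeZero p := ⟨hp0.ne'⟩
  have hpR : (0 : ℝ) < p := by exact_mod_cast hp0
  set f : ZMod p → ℂ := fun a => ((E.filter fun n : ℕ => (n : ZMod p) = a).card : ℂ) with hf
  have hfc : ∀ c ∈ range p, f (c : ZMod p) = (cnt E p c : ℂ) := by
    intro c hc
    rw [mem_range] at hc
    rw [hf]
    unfold cnt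
    simp only
    congr 2
    ext n
    rw [mem_filter, mem_filter]
    refine and_congr_right fun _ => ?_
    rw [ZMod.natCast_eq_natCast_iff', Nat.mod_eq_of_lt hc]
  have hS : ∀ b : ZMod p, ∑ a : ZMod p, f a * (ZMod.stdAddChar (b * a) : ℂ) =
      ∑ n ∈ E, (ZMod.stdAddChar (b * (n : ZMod p)) : ℂ) := by
    intro b
    have h1 : ∀ a : ZMod p, f a * (ZMod.stdAddChar (b * a) : ℂ) =
        ∑ n ∈ E.filter (fun n : ℕ => (n : ZMod p) = a), (ZMod.stdAddChar (b * (n : ZMod p)) : ℂ) := by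
      intro a
      rw [Finset.sum_congr rfl (fun n hn => by rw [(mem_filter.1 hn).2]), Finset.sum_const, nsmul_eq_mul]
    simp_rw [h1]
    rw [Finset.sum_fiberwise]
  have hpar := add_parseval p f
  simp_rw [hS] at hpar
  -- split off the term b = 0
  have hsplit : ∑ b : ZMod p, ‖∑ n ∈ E, (ZMod.stdAddChar (b * (n : ZMod p)) : ℂ)‖ ^ 2 =
      (E.card : ℝ) ^ 2 + ∑ b : ZMod p, (if IsUnit b then
        ‖∑ n ∈ E, (ZMod.stdAddChar (b * (n : ZMod p)) : ℂ)‖ ^ 2 else 0) := by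
    have : Fact p.Prime := ⟨hp⟩
    have h2 : ∀ b : ZMod p, ‖∑ n ∈ E, (ZMod.stdAddChar (b * (n : ZMod p)) : ℂ)‖ ^ 2 =
        (if b = 0 then (E.card : ℝ) ^ 2 else 0) + (if IsUnit b then
        ‖∑ n ∈ E, (ZMod.stdAddChar (b * (n : ZMod p)) : ℂ)‖ ^ 2 else 0) := by
      intro b
      by_cases hb : b = 0
      · subst hb
        simp
      · rw [if_neg hb, if_pos (isUnit_iff_ne_zero.2 hb), zero_add]
    rw [Finset.sum_congr rfl (fun b _ => h2 b), Finset.sum_add_distrib]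
    congr 1
    rw [Finset.sum_ite_eq' univ (0 : ZMod p), if_pos (mem_univ _)]
  rw [hsplit, sum_units_eq] at hpar
  have h3 : ∑ b ∈ (range p).filter (fun b => Nat.Coprime b p),
        ‖∑ n ∈ E, ex ((n : ℝ) * ((b : ℝ) / p))‖ ^ 2 =
      ∑ b ∈ (range p).filter (fun b => Nat.Coprime b p),
        ‖∑ n ∈ E, (ZMod.stdAddChar ((b : ZMod p) * (n : ZMod p)) : ℂ)‖ ^ 2 := by
    refine Finset.sum_congr rfl fun b _ => ?_
    simp_rw [std_eq_ex]
  rw [h3]
  have h4 : ∑ a : ZMod p, ‖f a‖ ^ 2 = ∑ c ∈ range p, (cnt E p c : ℝ) ^ 2 := by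
    rw [EX_zmod_sum]
    refine Finset.sum_congr rfl fun c hc => ?_
    rw [hfc c hc, Complex.norm_natCast]
  rw [h4] at hpar
  have h5 : ∑ c ∈ range p, ((cnt E p c : ℝ) - E.card / p) ^ 2 =
      ∑ c ∈ range p, (cnt E p c : ℝ) ^ 2 - (E.card : ℝ) ^ 2 / p := by
    have h6 : ∀ c ∈ range p, ((cnt E p c : ℝ) - E.card / p) ^ 2 =
        (cnt E p c : ℝ) ^ 2 - 2 * (E.card / p) * (cnt E p c : ℝ) + ((E.card : ℝ) / p) ^ 2 := by
      intro c _
      ring
    rw [Finset.sum_congr rfl h6, Finset.sum_add_distrib, Finset.sum_sub_distrib, ← Finset.mul_sum,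
      Finset.sum_const, card_range, nsmul_eq_mul]
    have h7 : ∑ c ∈ range p, (cnt E p c : ℝ) = E.card := by
      exact_mod_cast EX_sum_cnt E p hp0
    rw [h7]
    field_simp
    ring
  rw [h5, mul_sub, mul_div_cancel₀ _ hpR.ne']
  linarith

/-- The large sieve: a set `S` of classes in which `E` deviates by `d` from the mean. -/
theorem EX_ls (N R : ℕ) (hR : 1 ≤ R) (E : Finset ℕ) (hE : E ⊆ Ioc 0 N) (S : Finset (ℕ × ℕ)) (P0 d : ℝ)
    (hd : 0 ≤ d) (hS : ∀ x ∈ S, x.1.Prime ∧ x.1 ≤ R ∧ x.2 < x.1 ∧ P0 ≤ x.1 ∧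
      d ≤ (cnt E x.1 x.2 : ℝ) - E.card / x.1) :
    P0 * d ^ 2 * S.card ≤ 5 * ((N : ℝ) + R ^ 2) * E.card := by
  classical
  have h0 := farey_sieve R 0 N hR (fun n => if n ∈ E then 1 else 0)
  have h1 : ∑ n ∈ Ioc 0 (0 + N), ‖(if n ∈ E then (1 : ℂ) else 0)‖ ^ 2 = E.card := by
    rw [zero_add]
    have h2 : ∀ n ∈ Ioc 0 N, ‖(if n ∈ E then (1 : ℂ) else 0)‖ ^ 2 = if n ∈ E then (1 : ℝ) else 0 := by
      intro n _
      split_ifs <;> simp
    rw [Finset.sum_congr rfl h2, ← Finset.sum_filter, Finset.sum_const, nsmul_eq_mul, mul_one]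
    congr 2
    ext n
    rw [mem_filter]
    exact ⟨fun h => h.2, fun h => ⟨hE h, h⟩⟩
  have h3 : ∀ x : ℝ, ∑ n ∈ Ioc 0 (0 + N), (if n ∈ E then (1 : ℂ) else 0) * ex ((n : ℝ) * x) =
      ∑ n ∈ E, ex ((n : ℝ) * x) := by
    intro x
    rw [zero_add]
    simp_rw [ite_mul, one_mul, zero_mul]
    rw [← Finset.sum_filter]
    refine Finset.sum_congr ?_ fun _ _ => rfl
    ext n
    rw [mem_filter]
    exact ⟨fun h => h.2, fun h => ⟨hE h, h⟩⟩
  simp_rw [h3] at h0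
  rw [h1] at h0
  refine le_trans ?_ h0
  -- the primes
  set Pr := (Icc 1 R).filter Nat.Prime with hPr
  have h4 : ∑ p ∈ Pr, ∑ b ∈ (range p).filter (fun b => Nat.Coprime b p),
      ‖∑ n ∈ E, ex ((n : ℝ) * ((b : ℝ) / p))‖ ^ 2 ≤
      ∑ p ∈ farey R, ‖∑ n ∈ E, ex ((n : ℝ) * ((p.2 : ℝ) / p.1))‖ ^ 2 := by
    have h5 : ∑ p ∈ farey R, ‖∑ n ∈ E, ex ((n : ℝ) * ((p.2 : ℝ) / p.1))‖ ^ 2 =
        ∑ p ∈ Icc 1 R, ∑ b ∈ (range p).filter (fun b => Nat.Coprime b p),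
          ‖∑ n ∈ E, ex ((n : ℝ) * ((b : ℝ) / p))‖ ^ 2 := by
      rw [farey, sum_filter, sum_product]
      refine sum_congr rfl fun r hr => ?_
      rw [mem_Icc] at hr
      rw [← sum_filter]
      refine sum_congr ?_ (fun _ _ => rfl)
      ext b
      rw [mem_filter, mem_filter, mem_range, mem_range]
      simp only
      constructor
      · rintro ⟨_, h2, h3⟩
        exact ⟨h2, h3⟩
      · rintro ⟨h2, h3⟩
        exact ⟨by omega, h2, h3⟩
    rw [h5]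
    exact Finset.sum_le_sum_of_subset_of_nonneg (filter_subset _ _) fun _ _ _ =>
      Finset.sum_nonneg fun _ _ => by positivity
  refine le_trans ?_ h4
  have h6 : ∑ p ∈ Pr, ∑ b ∈ (range p).filter (fun b => Nat.Coprime b p),
      ‖∑ n ∈ E, ex ((n : ℝ) * ((b : ℝ) / p))‖ ^ 2 =
      ∑ p ∈ Pr, ∑ c ∈ range p, (p : ℝ) * ((cnt E p c : ℝ) - E.card / p) ^ 2 := by
    refine Finset.sum_congr rfl fun p hp => ?_
    rw [← EX_var E p (mem_filter.1 hp).2, Finset.mul_sum]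
  rw [h6, Finset.sum_sigma']
  -- S as a set of sigma pairs
  set S' : Finset (Σ _ : ℕ, ℕ) := S.image fun x => ⟨x.1, x.2⟩ with hS'
  have hinj : Set.InjOn (fun x : ℕ × ℕ => (⟨x.1, x.2⟩ : Σ _ : ℕ, ℕ)) (S : Set (ℕ × ℕ)) := by
    intro x _ y _ h
    simp only [Sigma.mk.injEq, heq_eq_eq] at h
    exact Prod.ext h.1 h.2
  have hcard : S'.card = S.card := Finset.card_image_of_injOn hinj
  have hsub : S' ⊆ Pr.sigma fun p => range p := by
    intro x hx
    obtain ⟨y, hy, rfl⟩ := mem_image.1 hx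
    obtain ⟨h7, h8, h9, -, -⟩ := hS y hy
    rw [mem_sigma]
    refine ⟨?_, mem_range.2 h9⟩
    rw [hPr, mem_filter, mem_Icc]
    exact ⟨⟨h7.pos, h8⟩, h7⟩
  calc P0 * d ^ 2 * S.card = ∑ _x ∈ S', P0 * d ^ 2 := by
        rw [Finset.sum_const, hcard, nsmul_eq_mul]
        ring
    _ ≤ ∑ x ∈ S', (x.1 : ℝ) * ((cnt E x.1 x.2 : ℝ) - E.card / x.1) ^ 2 := by
        refine Finset.sum_le_sum fun x hx => ?_
        obtain ⟨y, hy, rfl⟩ := mem_image.1 hx
        obtain ⟨h7, h8, h9, h10, h11⟩ := hS y hy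
        simp only
        have h12 : d ^ 2 ≤ ((cnt E y.1 y.2 : ℝ) - E.card / y.1) ^ 2 := pow_le_pow_left₀ hd h11 2
        have h13 : (0 : ℝ) ≤ y.1 := Nat.cast_nonneg _
        calc P0 * d ^ 2 ≤ y.1 * d ^ 2 := mul_le_mul_of_nonneg_right h10 (by positivity)
          _ ≤ _ := mul_le_mul_of_nonneg_left h12 h13
    _ ≤ _ := Finset.sum_le_sum_of_subset_of_nonneg hsub fun _ _ _ => by positivity

end Pool.Agent.EX
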