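import Pool.Agent.helper96.WB.AllRich
import Pool.Agent.helper49.EX.LS

/-!
# MP_bb5cc8_nt, project EX: primes with a class which has many elements in `E`
-/

set_option autoImplicit false

namespace Pool.Agent.EX

open Finset

theorem EX_inv_sq (r0 K : ℕ) (h0 : 1 ≤ r0) :
    ∑ r ∈ Ioc r0 K, 1 / (r : ℝ) ^ 2 ≤ 1 / (r0 : ℝ) := by
  have key : ∀ k : ℕ, ∑ r ∈ Ioc r0 (r0 + k), 1 / (r : ℝ) ^ 2 ≤ 1 / (r0 : ℝ) - 1 / ((r0 + k : ℕ) : ℝ) := by
    intro k
    induction k with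
    | zero => simp
    | succ k ih =>
      rw [← add_assoc, Finset.sum_Ioc_succ_top (by omega)]
      have h1 : (1 : ℝ) ≤ r0 := by exact_mod_cast h0
      have h2 : (0 : ℝ) ≤ k := Nat.cast_nonneg k
      have h3 : 1 / (((r0 + k + 1 : ℕ) : ℝ)) ^ 2 ≤ 1 / ((r0 + k : ℕ) : ℝ) - 1 / ((r0 + k + 1 : ℕ) : ℝ) := by
        push_cast
        have h4 : (0 : ℝ) < r0 + k := by linarith
        rw [div_sub_div _ _ h4.ne' (by linarith), div_le_div_iff₀ (by positivity) (by positivity)]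
        nlinarith
      linarith
  rcases Nat.lt_or_ge K r0 with h | h
  · rw [Finset.Ioc_eq_empty (by omega), Finset.sum_empty]
    positivity
  · obtain ⟨k, rfl⟩ := Nat.exists_eq_add_of_le h
    have h1 := key k
    have h2 : (0 : ℝ) ≤ 1 / ((r0 + k : ℕ) : ℝ) := by positivity
    linarith

theorem EX_harm (r0 K : ℕ) :
    ∑ r ∈ Ioc r0 K, 1 / (r : ℝ) ≤ 1 + Real.log K := by
  have h1 : ∑ r ∈ Ioc r0 K, 1 / (r : ℝ) ≤ ∑ r ∈ Ioc 0 K, 1 / (r : ℝ) :=
    Finset.sum_le_sum_of_subset_of_nonneg (Finset.Ioc_subset_Ioc_left (Nat.zero_le _))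
      fun _ _ _ => by positivity
  refine h1.trans ?_
  have h2 := harmonic_le_one_add_log K
  have h3 : ((harmonic K : ℚ) : ℝ) = ∑ r ∈ Ioc 0 K, 1 / (r : ℝ) := by
    rw [harmonic_eq_sum_Icc]
    push_cast
    refine Finset.sum_congr ?_ fun r _ => by rw [one_div]
    ext r
    rw [mem_Icc, mem_Ioc]
    omega
  rw [h3] at h2
  exact h2

theorem EX_layer (E : Finset ℕ) (r : ℕ → ℕ) (r0 K : ℕ) (hK : ∀ n ∈ E, r n ≤ K) :
    ∑ n ∈ E, r n ≤ r0 * E.card + ∑ j ∈ Ioc r0 K, (E.filter fun n => j ≤ r n).card := by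
  have h1 : ∀ n ∈ E, r n ≤ r0 + ∑ j ∈ Ioc r0 K, (if j ≤ r n then 1 else 0) := by
    intro n hn
    rcases Nat.lt_or_ge r0 (r n) with h | h
    · have h2 : ∑ j ∈ Ioc r0 K, (if j ≤ r n then 1 else 0) = r n - r0 := by
        rw [← Finset.sum_filter, Finset.sum_const, smul_eq_mul, mul_one]
        have h3 : (Ioc r0 K).filter (fun j => j ≤ r n) = Ioc r0 (r n) := by
          ext j
          rw [mem_filter, mem_Ioc, mem_Ioc]
          have := hK n hn
          omega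
        rw [h3, Nat.card_Ioc]
      omega
    · exact h.trans (Nat.le_add_right _ _)
  refine (Finset.sum_le_sum h1).trans ?_
  rw [Finset.sum_add_distrib, Finset.sum_const, smul_eq_mul, Finset.sum_comm, mul_comm]
  refine Nat.add_le_add_left (le_of_eq ?_) _
  refine Finset.sum_congr rfl fun j _ => ?_
  rw [Finset.card_filter]

theorem EX_rt (α : ℝ) (hα : 1 / 2 < α) (hα1 : α < 1) (ε : ℝ) (hε : 0 < ε) :
    ∃ N₀ : ℕ, ∀ N : ℕ, N₀ ≤ N → ∀ E : Finset ℕ, E ⊆ Ioc 0 N → ∀ T : Finset ℕ,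
      (∀ p ∈ T, p.Prime ∧ (N : ℝ) ^ α ≤ (p : ℝ) ∧ (p : ℝ) < 2 * (N : ℝ) ^ α ∧
        ∃ c < p, (N : ℝ) ^ (1 - α) / 5 ≤ (cnt E p c : ℝ)) →
      (T.card : ℝ) ≤ (N : ℝ) ^ (ε + 2 * α - 3 / 2) * E.card := by
  classical
  set e : ℝ := min (ε / 2) ((1 - α) / 2) with he
  have he0 : 0 < e := lt_min (by linarith) (by linarith)
  have he1 : e ≤ ε / 2 := min_le_left _ _
  have he2 : e ≤ (1 - α) / 2 := min_le_right _ _
  obtain ⟨N₁, hN₁⟩ := Pool.Agent.WB.RICH_all α e hα hα1 he0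
  -- numerical conditions
  have hA : ∀ᶠ N : ℕ in Filter.atTop, (210 : ℝ) ≤ (N : ℝ) ^ (ε / 2) :=
    ((tendsto_rpow_atTop (by linarith : 0 < ε / 2)).comp tendsto_natCast_atTop_atTop).eventually_ge_atTop 210
  have hBt : ∀ᶠ N : ℕ in Filter.atTop, 20 * (1 + Real.log (2 * (N : ℝ))) ≤ (N : ℝ) ^ ((1 - α) / 2) := by
    have h := (isLittleO_log_rpow_atTop (show (0 : ℝ) < (1 - α) / 2 by linarith)).bound
      (show (0 : ℝ) < 1 / 40 by norm_num)
    have h' := tendsto_natCast_atTop_atTop.eventually h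
    have h2 := ((tendsto_rpow_atTop (by linarith : 0 < (1 - α) / 2)).comp
      tendsto_natCast_atTop_atTop).eventually_ge_atTop (80 : ℝ)
    filter_upwards [h', h2, Filter.eventually_ge_atTop 1] with N hN hN2 hN1
    have hN1' : (1 : ℝ) ≤ N := by exact_mod_cast hN1
    rw [Real.norm_of_nonneg (Real.log_nonneg hN1'),
      Real.norm_of_nonneg (Real.rpow_nonneg (by linarith) _)] at hN
    have hN2' : (80 : ℝ) ≤ (N : ℝ) ^ ((1 - α) / 2) := hN2
    rw [Real.log_mul (by norm_num) (by linarith)]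
    have := Real.log_two_lt_d9
    linarith
  obtain ⟨N₂, hN₂⟩ := Filter.eventually_atTop.mp (hA.and hBt)
  refine ⟨max N₁ (max N₂ 2), fun N hN E hE T hT => ?_⟩
  have hN1 : N₁ ≤ N := by omega
  obtain ⟨hA', hB'⟩ := hN₂ N (by omega)
  have hN2 : 2 ≤ N := by omega
  have hNR : (2 : ℝ) ≤ N := by exact_mod_cast hN2
  have hN0 : (0 : ℝ) < N := by linarith
  have hN1R : (1 : ℝ) ≤ N := by linarith
  set L : ℝ := (N : ℝ) ^ (1 - α) with hL
  have hL0 : 0 < L := Real.rpow_pos_of_pos hN0 _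
  set X : ℝ := (N : ℝ) ^ (e + 1 / 2) with hX
  have hX0 : 0 < X := Real.rpow_pos_of_pos hN0 _
  -- the choice
  have hch : ∀ p : ℕ, ∃ a : ZMod p, p ∈ T → L / 5 ≤ ((E.filter fun n : ℕ => (n : ZMod p) = a).card : ℝ) := by
    intro p
    by_cases hp : p ∈ T
    · obtain ⟨hpp, -, -, c, hc, h1⟩ := hT p hp
      refine ⟨(c : ZMod p), fun _ => ?_⟩
      refine h1.trans (le_of_eq ?_)
      unfold cnt
      congr 2
      ext n
      rw [mem_filter, mem_filter]
      refine and_congr_right fun _ => ?_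
      rw [ZMod.natCast_eq_natCast_iff', Nat.mod_eq_of_lt hc]
    · exact ⟨0, fun h => absurd h hp⟩
  choose a ha using hch
  set r : ℕ → ℕ := fun n => (T.filter fun p => (n : ZMod p) = a p).card with hr
  have hrK : ∀ n ∈ E, r n ≤ T.card := fun n _ => card_filter_le _ _
  have hTN : (T.card : ℝ) ≤ 2 * N := by
    have h1 : T ⊆ range (2 * N) := by
      intro p hp
      obtain ⟨-, -, h2, -⟩ := hT p hp
      rw [mem_range]
      have h3 : (N : ℝ) ^ α ≤ N := by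
        calc (N : ℝ) ^ α ≤ (N : ℝ) ^ (1 : ℝ) := Real.rpow_le_rpow_of_exponent_le hN1R hα1.le
          _ = N := Real.rpow_one _
      have h4 : (p : ℝ) < 2 * N := by linarith
      exact_mod_cast h4
    have h2 := card_le_card h1
    rw [card_range] at h2
    exact_mod_cast h2
  -- double counting
  have hdc : (T.card : ℝ) * (L / 5) ≤ ((∑ n ∈ E, r n : ℕ) : ℝ) := by
    have h1 : ∑ n ∈ E, r n = ∑ p ∈ T, (E.filter fun n : ℕ => (n : ZMod p) = a p).card := by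
      simp only [hr, Finset.card_filter]
      exact Finset.sum_comm
    rw [h1]
    push_cast
    rw [← nsmul_eq_mul]
    exact Finset.card_nsmul_le_sum _ _ _ fun p hp => ha p hp
  obtain ⟨hrich, -⟩ := hN₁ N hN1 a T (fun p hp => ⟨(hT p hp).1, (hT p hp).2.1, (hT p hp).2.2.1⟩)
  set r0 : ℕ := ⌈20 * X / L⌉₊ with hr0
  have hr0pos : 1 ≤ r0 := Nat.ceil_pos.2 (by positivity)
  have hr0R : (0 : ℝ) < r0 := by exact_mod_cast hr0pos
  have hr0ge : 20 * X / L ≤ r0 := Nat.le_ceil _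
  have hlay := EX_layer E r r0 T.card hrK
  have hlayR : ((∑ n ∈ E, r n : ℕ) : ℝ) ≤ r0 * E.card + ∑ j ∈ Ioc r0 T.card, ((E.filter fun n => j ≤ r n).card : ℝ) := by
    exact_mod_cast hlay
  have hG : ∀ j ∈ Ioc r0 T.card, ((E.filter fun n => j ≤ r n).card : ℝ) ≤
      (N : ℝ) ^ e * (T.card * ((N : ℝ) ^ (1 / 2 : ℝ) / (j : ℝ) ^ 2 + 1 / (j : ℝ))) := by
    intro j hj
    rw [mem_Ioc] at hj
    refine le_trans ?_ (hrich j (by omega))
    have h2 : ((E.filter fun n => j ≤ r n) : Set ℕ) ⊆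
        {n : ℕ | 1 ≤ n ∧ n ≤ N ∧ j ≤ {p : ℕ | p ∈ T ∧ (n : ZMod p) = a p}.ncard} := by
      intro n hn
      rw [Finset.mem_coe, mem_filter] at hn
      have h3 := mem_Ioc.1 (hE hn.1)
      refine ⟨h3.1, h3.2, ?_⟩
      have h4 : {p : ℕ | p ∈ T ∧ (n : ZMod p) = a p} = ((T.filter fun p => (n : ZMod p) = a p) : Set ℕ) := by
        ext p
        rw [Finset.mem_coe, mem_filter]
        rfl
      rw [h4, Set.ncard_coe_finset]
      exact hn.2
    have h5 : {n : ℕ | 1 ≤ n ∧ n ≤ N ∧ j ≤ {p : ℕ | p ∈ T ∧ (n : ZMod p) = a p}.ncard}.Finite :=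
      (Set.finite_Icc 1 N).subset fun n hn => ⟨hn.1, hn.2.1⟩
    have h6 := Set.ncard_le_ncard h2 h5
    rw [Set.ncard_coe_finset] at h6
    exact_mod_cast h6
  have hNe : (0 : ℝ) < (N : ℝ) ^ e := Real.rpow_pos_of_pos hN0 _
  have hsum : ∑ j ∈ Ioc r0 T.card, ((E.filter fun n => j ≤ r n).card : ℝ) ≤
      (T.card : ℝ) * (L / 10) := by
    refine (Finset.sum_le_sum hG).trans ?_
    have h1 : ∑ j ∈ Ioc r0 T.card, (N : ℝ) ^ e * (T.card * ((N : ℝ) ^ (1 / 2 : ℝ) / (j : ℝ) ^ 2 + 1 / (j : ℝ))) =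
        (T.card : ℝ) * ((N : ℝ) ^ e * (N : ℝ) ^ (1 / 2 : ℝ) * ∑ j ∈ Ioc r0 T.card, 1 / (j : ℝ) ^ 2 +
          (N : ℝ) ^ e * ∑ j ∈ Ioc r0 T.card, 1 / (j : ℝ)) := by
      rw [Finset.mul_sum, Finset.mul_sum, ← Finset.sum_add_distrib, Finset.mul_sum]
      refine Finset.sum_congr rfl fun j _ => ?_
      ring
    rw [h1]
    refine mul_le_mul_of_nonneg_left ?_ (Nat.cast_nonneg _)
    have h2 : (N : ℝ) ^ e * (N : ℝ) ^ (1 / 2 : ℝ) = X := by
      rw [hX, Real.rpow_add hN0]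
    have h3 : (N : ℝ) ^ e * (N : ℝ) ^ (1 / 2 : ℝ) * ∑ j ∈ Ioc r0 T.card, 1 / (j : ℝ) ^ 2 ≤ L / 20 := by
      rw [h2]
      calc X * ∑ j ∈ Ioc r0 T.card, 1 / (j : ℝ) ^ 2 ≤ X * (1 / (r0 : ℝ)) :=
            mul_le_mul_of_nonneg_left (EX_inv_sq r0 T.card hr0pos) hX0.le
        _ ≤ L / 20 := by
            rw [mul_one_div, div_le_iff₀ hr0R]
            have h4 : 20 * X ≤ r0 * L := by
              rw [div_le_iff₀ hL0] at hr0ge
              exact hr0ge
            linarith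
    have h4 : (N : ℝ) ^ e * ∑ j ∈ Ioc r0 T.card, 1 / (j : ℝ) ≤ L / 20 := by
      have h5 : ∑ j ∈ Ioc r0 T.card, 1 / (j : ℝ) ≤ 1 + Real.log (2 * N) := by
        rcases Nat.eq_zero_or_pos T.card with h | h
        · rw [h, Finset.Ioc_eq_empty (by omega), Finset.sum_empty]
          have := Real.log_nonneg (show (1 : ℝ) ≤ 2 * N by linarith)
          linarith
        · refine (EX_harm r0 T.card).trans ?_
          have h6 : (0 : ℝ) < T.card := by exact_mod_cast h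
          linarith [Real.log_le_log h6 hTN]
      have h6 : (N : ℝ) ^ e ≤ (N : ℝ) ^ ((1 - α) / 2) := Real.rpow_le_rpow_of_exponent_le hN1R he2
      have h7 : L = (N : ℝ) ^ ((1 - α) / 2) * (N : ℝ) ^ ((1 - α) / 2) := by
        rw [hL, ← Real.rpow_add hN0]
        congr 1
        ring
      have h8 : (0 : ℝ) ≤ 1 + Real.log (2 * N) := by
        have := Real.log_nonneg (show (1 : ℝ) ≤ 2 * N by linarith)
        linarith
      calc (N : ℝ) ^ e * ∑ j ∈ Ioc r0 T.card, 1 / (j : ℝ)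
          ≤ (N : ℝ) ^ e * (1 + Real.log (2 * N)) := mul_le_mul_of_nonneg_left h5 hNe.le
        _ ≤ (N : ℝ) ^ ((1 - α) / 2) * (1 + Real.log (2 * N)) := mul_le_mul_of_nonneg_right h6 h8
        _ ≤ (N : ℝ) ^ ((1 - α) / 2) * ((N : ℝ) ^ ((1 - α) / 2) / 20) := by
            refine mul_le_mul_of_nonneg_left ?_ (Real.rpow_nonneg hN0.le _)
            linarith
        _ = L / 20 := by
            rw [h7]
            ring
    linarith
  have hmain : (T.card : ℝ) * (L / 10) ≤ r0 * E.card := by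
    have h1 : (T.card : ℝ) * (L / 5) ≤ r0 * E.card + (T.card : ℝ) * (L / 10) := by linarith
    linarith
  -- numbers
  have hXL : X / L = (N : ℝ) ^ (e + α - 1 / 2) := by
    rw [hX, hL, ← Real.rpow_sub hN0]
    congr 1
    ring
  have hXL1 : 1 ≤ X / L := by
    rw [hXL]
    exact Real.one_le_rpow hN1R (by linarith)
  have hr0le : (r0 : ℝ) ≤ 21 * (X / L) := by
    have h1 : (r0 : ℝ) < 20 * X / L + 1 := Nat.ceil_lt_add_one (by positivity)
    have h2 : 20 * X / L = 20 * (X / L) := by ring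
    linarith
  have hE0 : (0 : ℝ) ≤ E.card := Nat.cast_nonneg _
  have h1 : (T.card : ℝ) ≤ 210 * (X / L / L) * E.card := by
    have h2 : (T.card : ℝ) * (L / 10) ≤ 21 * (X / L) * E.card :=
      hmain.trans (mul_le_mul_of_nonneg_right hr0le hE0)
    have h3 : (T.card : ℝ) * (L / 10) * (10 / L) ≤ 21 * (X / L) * E.card * (10 / L) :=
      mul_le_mul_of_nonneg_right h2 (by positivity)
    have h4 : (T.card : ℝ) * (L / 10) * (10 / L) = T.card := by
      field_simp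
    rw [h4] at h3
    refine h3.trans (le_of_eq ?_)
    ring
  refine h1.trans (mul_le_mul_of_nonneg_right ?_ hE0)
  have h5 : X / L / L = (N : ℝ) ^ (e + 2 * α - 3 / 2) := by
    rw [hXL, hL, ← Real.rpow_sub hN0]
    congr 1
    ring
  rw [h5]
  calc 210 * (N : ℝ) ^ (e + 2 * α - 3 / 2)
      ≤ (N : ℝ) ^ (ε / 2) * (N : ℝ) ^ (ε / 2 + 2 * α - 3 / 2) := by
        refine mul_le_mul hA' ?_ (Real.rpow_nonneg hN0.le _) (Real.rpow_nonneg hN0.le _)
        exact Real.rpow_le_rpow_of_exponent_le hN1R (by linarith)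
    _ = (N : ℝ) ^ (ε + 2 * α - 3 / 2) := by
        rw [← Real.rpow_add hN0]
        congr 1
        ring

end Pool.Agent.EX
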