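import Pool.Agent.helper49.EX.CL
import Pool.Agent.helper49.EX.RT

/-!
# MP_bb5cc8_nt, project EX: the two counting theorems
-/

set_option autoImplicit false

namespace Pool.Agent.EX

open Finset Pool.Agent.helper86

/-- All classes. -/
noncomputable def UU (N : ℕ) (α : ℝ) : Finset (ℕ × ℕ) :=
  ((dyadicPrimes ((N : ℝ) ^ α)) ×ˢ range (2 * N)).filter fun x => x.2 < x.1

theorem EX_rpow_le (N : ℕ) (hN : 1 ≤ N) (α : ℝ) (hα1 : α < 1) : (N : ℝ) ^ α ≤ N := by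
  have hN1R : (1 : ℝ) ≤ N := by exact_mod_cast hN
  calc (N : ℝ) ^ α ≤ (N : ℝ) ^ (1 : ℝ) := Real.rpow_le_rpow_of_exponent_le hN1R hα1.le
    _ = N := Real.rpow_one _

theorem EX_mem_UU (N : ℕ) (hN : 1 ≤ N) (α : ℝ) (hα1 : α < 1) (x : ℕ × ℕ) :
    x ∈ UU N α ↔ (x.1.Prime ∧ (N : ℝ) ^ α ≤ (x.1 : ℝ) ∧ (x.1 : ℝ) < 2 * (N : ℝ) ^ α) ∧ x.2 < x.1 := by
  unfold UU
  rw [mem_filter, mem_product, mem_dyadicPrimes, mem_range]
  constructor
  · rintro ⟨⟨h1, -⟩, h2⟩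
    exact ⟨h1, h2⟩
  · rintro ⟨h1, h2⟩
    refine ⟨⟨h1, ?_⟩, h2⟩
    have h3 := EX_rpow_le N hN α hα1
    have h4 : (x.1 : ℝ) < 2 * N := by linarith [h1.2.2]
    have h5 : x.1 < 2 * N := by exact_mod_cast h4
    omega

theorem EX_primes_le (N : ℕ) (α : ℝ) :
    ((dyadicPrimes ((N : ℝ) ^ α)).card : ℝ) ≤ 2 * (N : ℝ) ^ α := by
  have h0 : (0 : ℝ) ≤ (N : ℝ) ^ α := Real.rpow_nonneg (Nat.cast_nonneg _) _
  have h1 : dyadicPrimes ((N : ℝ) ^ α) ⊆ Ioc 0 ⌊2 * (N : ℝ) ^ α⌋₊ := by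
    intro p hp
    rw [mem_dyadicPrimes] at hp
    rw [mem_Ioc]
    exact ⟨hp.1.pos, Nat.le_floor hp.2.2.le⟩
  have h2 := card_le_card h1
  rw [Nat.card_Ioc, Nat.sub_zero] at h2
  calc ((dyadicPrimes ((N : ℝ) ^ α)).card : ℝ) ≤ (⌊2 * (N : ℝ) ^ α⌋₊ : ℝ) := by exact_mod_cast h2
    _ ≤ 2 * (N : ℝ) ^ α := Nat.floor_le (by linarith)

theorem EX_UU_card (N : ℕ) (hN : 5 ≤ N) (α : ℝ) (hα1 : α < 1) : ((UU N α).card : ℝ) + 1 ≤ (N : ℝ) ^ (3 : ℝ) := by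
  have h1 : (UU N α).card ≤ (dyadicPrimes ((N : ℝ) ^ α)).card * (2 * N) := by
    unfold UU
    refine (card_filter_le _ _).trans ?_
    rw [card_product, card_range]
  have h2 := EX_primes_le N α
  have h3 := EX_rpow_le N (by omega) α hα1
  have hNR : (5 : ℝ) ≤ N := by exact_mod_cast hN
  have h4 : ((UU N α).card : ℝ) ≤ (dyadicPrimes ((N : ℝ) ^ α)).card * (2 * N) := by exact_mod_cast h1
  have h5 : ((dyadicPrimes ((N : ℝ) ^ α)).card : ℝ) * (2 * N) ≤ (2 * N) * (2 * N) :=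
    mul_le_mul_of_nonneg_right (by linarith) (by linarith)
  have h6 : (N : ℝ) ^ (3 : ℝ) = N ^ 3 := by
    rw [show (3 : ℝ) = ((3 : ℕ) : ℝ) by norm_num, Real.rpow_natCast]
  rw [h6]
  have h7 : (4 * (N : ℝ) ^ 2 + 1) ≤ N ^ 3 := by nlinarith [sq_nonneg ((N : ℝ))]
  nlinarith

/-- The fingerprint of a lossy family of classes. -/
theorem EX_lossy (N : ℕ) (hN : 1 ≤ N) (α : ℝ) (hα1 : α < 1) (hL : 10 ≤ (N : ℝ) ^ (1 - α)) (A : Finset (ℕ × ℕ))
    (hA : A ⊆ UU N α) (s : ℝ) (hs : ((EE N A).card : ℝ) < s * (N : ℝ) ^ (1 - α)) :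
    ∃ F ⊆ A, (F.card : ℝ) ≤ 5 * s ∧ ((EE N F).card : ℝ) < s * (N : ℝ) ^ (1 - α) ∧
      ∀ x ∈ A, (N : ℝ) ^ (1 - α) / 5 ≤ (cnt (EE N F) x.1 x.2 : ℝ) := by
  have hNR : (1 : ℝ) ≤ N := by exact_mod_cast hN
  have hN0 : (0 : ℝ) < N := by linarith
  set L : ℝ := (N : ℝ) ^ (1 - α) with hLd
  have hL0 : 0 < L := by linarith
  have hw : ∀ x ∈ A, 2 * (L / 5) ≤ ((cls N x).card : ℝ) := by
    intro x hx
    obtain ⟨⟨h1, h2, h3⟩, h4⟩ := (EX_mem_UU N hN α hα1 x).1 (hA hx)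
    have h5 := EX_cls_card N x.1 x.2 h1.pos h4
    have hx0 : (0 : ℝ) < x.1 := by exact_mod_cast h1.pos
    have h6 : L / 2 ≤ (N : ℝ) / x.1 := by
      rw [div_le_div_iff₀ (by norm_num) hx0]
      have h7 : L * (N : ℝ) ^ α = N := by
        rw [hLd, ← Real.rpow_add hN0, sub_add_cancel, Real.rpow_one]
      nlinarith
    linarith
  obtain ⟨F, hFA, hF1, hF2⟩ := EX_fp A (cls N) (L / 5) (by linarith) hw
  have hEF : ((F.biUnion (cls N)).card : ℝ) ≤ ((EE N A).card : ℝ) := by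
    exact_mod_cast card_le_card (EX_EE_mono N hFA)
  refine ⟨F, hFA, ?_, lt_of_le_of_lt hEF hs, fun x hx => ?_⟩
  · have h1 : (F.card : ℝ) * (L / 5) ≤ s * L := hF1.trans (hEF.trans hs.le)
    have h2 : ((F.card : ℝ) / 5) * L ≤ s * L := by
      calc ((F.card : ℝ) / 5) * L = (F.card : ℝ) * (L / 5) := by ring
        _ ≤ s * L := h1
    have h3 := le_of_mul_le_mul_right h2 hL0
    linarith
  · rw [← EX_cls_inter]
    exact hF2 x hx

/-- Few classes have many elements in common with a given set. -/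
theorem EX_few (N : ℕ) (hN : 1 ≤ N) (α : ℝ) (hα : 1 / 2 < α) (hα1 : α < 1)
    (E : Finset ℕ) (hE : E ⊆ Ioc 0 N) (hEc : (E.card : ℝ) ≤ (N : ℝ) / 20) (S : Finset (ℕ × ℕ))
    (hS : S ⊆ UU N α) (hS2 : ∀ x ∈ S, (N : ℝ) ^ (1 - α) / 5 ≤ (cnt E x.1 x.2 : ℝ)) :
    (S.card : ℝ) ≤ 2500 * (E.card * ((N : ℝ) ^ (2 * α - 1) / (N : ℝ) ^ (1 - α))) := by
  have hNR : (1 : ℝ) ≤ N := by exact_mod_cast hN
  have hN0 : (0 : ℝ) < N := by linarith
  set L : ℝ := (N : ℝ) ^ (1 - α) with hLd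
  have hL0 : 0 < L := Real.rpow_pos_of_pos hN0 _
  set P : ℝ := (N : ℝ) ^ α with hP
  have hP1 : 1 ≤ P := Real.one_le_rpow hNR (by linarith)
  have hPL : P * L = N := by
    rw [hP, hLd, ← Real.rpow_add hN0, add_sub_cancel, Real.rpow_one]
  have hNP : (N : ℝ) ≤ P ^ 2 := by
    rw [hP, ← Real.rpow_natCast, ← Real.rpow_mul hN0.le]
    calc (N : ℝ) = (N : ℝ) ^ (1 : ℝ) := (Real.rpow_one _).symm
      _ ≤ (N : ℝ) ^ (α * ((2 : ℕ) : ℝ)) := Real.rpow_le_rpow_of_exponent_le hNR (by push_cast; linarith)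
  have hR1 : 1 ≤ ⌈2 * P⌉₊ := Nat.one_le_ceil_iff.mpr (by linarith)
  have hRle : (⌈2 * P⌉₊ : ℝ) ≤ 3 * P := by
    have := Nat.ceil_lt_add_one (show (0 : ℝ) ≤ 2 * P by linarith)
    linarith
  have h1 := EX_ls N ⌈2 * P⌉₊ hR1 E hE S P (3 * L / 20) (by linarith) (by
    intro x hx
    obtain ⟨⟨h1, h2, h3⟩, h4⟩ := (EX_mem_UU N hN α hα1 x).1 (hS hx)
    refine ⟨h1, ?_, h4, h2, ?_⟩
    · have h5 : (x.1 : ℝ) ≤ (⌈2 * P⌉₊ : ℝ) := h3.le.trans (Nat.le_ceil _)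
      exact_mod_cast h5
    · have h5 := hS2 x hx
      have hx0 : (0 : ℝ) < x.1 := by exact_mod_cast h1.pos
      have h6 : (E.card : ℝ) / x.1 ≤ L / 20 := by
        rw [div_le_div_iff₀ hx0 (by norm_num)]
        nlinarith
      linarith)
  have hR2 : ((⌈2 * P⌉₊ : ℝ)) ^ 2 ≤ 9 * P ^ 2 := by
    have h0 : (0 : ℝ) ≤ (⌈2 * P⌉₊ : ℝ) := Nat.cast_nonneg _
    nlinarith
  have hEc0 : (0 : ℝ) ≤ E.card := Nat.cast_nonneg _
  have h2 : P * (3 * L / 20) ^ 2 * S.card ≤ 50 * P ^ 2 * E.card := by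
    refine h1.trans (mul_le_mul_of_nonneg_right ?_ hEc0)
    linarith
  have h3 : (L ^ 2) * (S.card : ℝ) ≤ 2500 * (P * E.card) := by
    have h4 : P * (9 * (L ^ 2 * S.card)) ≤ P * (20000 * (P * E.card)) := by
      calc P * (9 * (L ^ 2 * S.card)) = 400 * (P * (3 * L / 20) ^ 2 * S.card) := by ring
        _ ≤ 400 * (50 * P ^ 2 * E.card) := by linarith
        _ = P * (20000 * (P * E.card)) := by ring
    have h5 := le_of_mul_le_mul_left h4 (by linarith)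
    have h6 : 0 ≤ P * E.card := by positivity
    linarith
  have h4 : (N : ℝ) ^ (2 * α - 1) / L = P / L ^ 2 := by
    have h5 : (N : ℝ) ^ (2 * α - 1) = P / L := by
      rw [hP, hLd, ← Real.rpow_sub hN0]
      congr 1
      ring
    rw [h5]
    field_simp
  rw [h4]
  have h5 : (2500 * (E.card * (P / L ^ 2))) = 2500 * (P * E.card) / L ^ 2 := by
    field_simp
  rw [h5, le_div_iff₀ (by positivity)]
  linarith

/-- The numbers: `(|U| + 1) ^ m₀ B ^ M`. -/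
theorem EX_final (N : ℕ) (hN : 5 ≤ N) (α : ℝ) (hα1 : α < 1) (c δ β : ℝ) (hc0 : 0 < c) (hc : 30 * c ≤ δ)
    (M m0 : ℕ) (hm0 : (m0 : ℝ) ≤ 5 * (c * M)) :
    (((UU N α).card : ℝ) + 1) ^ m0 * ((N : ℝ) ^ β) ^ M ≤ (N : ℝ) ^ ((β + δ / 2) * M) := by
  have hNR : (5 : ℝ) ≤ N := by exact_mod_cast hN
  have hN0 : (0 : ℝ) < N := by linarith
  have h1 : (((UU N α).card : ℝ) + 1) ^ m0 ≤ (N : ℝ) ^ (δ / 2 * M) := by
    calc (((UU N α).card : ℝ) + 1) ^ m0 ≤ ((N : ℝ) ^ (3 : ℝ)) ^ m0 :=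
          pow_le_pow_left₀ (by positivity) (EX_UU_card N hN α hα1) m0
      _ = (N : ℝ) ^ (3 * (m0 : ℝ)) := by
          rw [Real.rpow_mul hN0.le, Real.rpow_natCast]
      _ ≤ (N : ℝ) ^ (δ / 2 * M) := by
          refine Real.rpow_le_rpow_of_exponent_le (by linarith) ?_
          have hM0 : (0 : ℝ) ≤ M := Nat.cast_nonneg _
          nlinarith
  have h2 : ((N : ℝ) ^ β) ^ M = (N : ℝ) ^ (β * M) := by
    rw [Real.rpow_mul hN0.le, Real.rpow_natCast]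
  rw [h2]
  calc (((UU N α).card : ℝ) + 1) ^ m0 * (N : ℝ) ^ (β * M)
      ≤ (N : ℝ) ^ (δ / 2 * M) * (N : ℝ) ^ (β * M) :=
        mul_le_mul_of_nonneg_right h1 (Real.rpow_nonneg hN0.le _)
    _ = (N : ℝ) ^ ((β + δ / 2) * M) := by
        rw [← Real.rpow_add hN0]
        congr 1
        ring

/-- Families of classes. -/
theorem EX_A (N : ℕ) (hN : 5 ≤ N) (α : ℝ) (hα : 1 / 2 < α) (hα1 : α < 1) (hL : 10 ≤ (N : ℝ) ^ (1 - α))
    (c δ e : ℝ) (he : 0 ≤ e) (he2 : e ≤ 2 * α - 1) (hc0 : 0 < c) (hc : 30 * c ≤ δ) (hc1 : c ≤ 1 / 15000)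
    (M : ℕ) (hM : 1 ≤ M) (hM2 : (M : ℝ) ≤ 2 * (N : ℝ) ^ α) :
    ((((UU N α).powerset.filter fun A => A.card = M ∧
      ((EE N A).card : ℝ) < c * M * (N : ℝ) ^ (1 - α - e)).card : ℕ) : ℝ) ≤
      (N : ℝ) ^ ((2 * α - 1 - e + δ / 2) * M) := by
  classical
  have hNR : (5 : ℝ) ≤ N := by exact_mod_cast hN
  have hN0 : (0 : ℝ) < N := by linarith
  have hMR : (1 : ℝ) ≤ M := by exact_mod_cast hM
  set L : ℝ := (N : ℝ) ^ (1 - α) with hLd
  have hL0 : 0 < L := by linarith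
  set q : ℝ := (N : ℝ) ^ (-e) with hq
  have hq0 : 0 < q := Real.rpow_pos_of_pos hN0 _
  have hq1 : q ≤ 1 := Real.rpow_le_one_of_one_le_of_nonpos (by linarith) (by linarith)
  have hLe : (N : ℝ) ^ (1 - α - e) = L * q := by
    rw [hLd, hq, ← Real.rpow_add hN0]
    congr 1
  set s : ℝ := c * M * q with hsd
  have hcM0 : 0 < c * M := by positivity
  have hs0 : 0 < s := by positivity
  have hsc : s ≤ c * M := by
    rw [hsd]
    exact mul_le_of_le_one_right hcM0.le hq1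
  have hsL : c * M * (N : ℝ) ^ (1 - α - e) = s * L := by
    rw [hLe, hsd]
    ring
  rw [hsL]
  set m0 : ℕ := ⌊5 * s⌋₊ with hm0
  have hm0le : (m0 : ℝ) ≤ 5 * (c * M) := (Nat.floor_le (by linarith)).trans (by linarith)
  set T : Finset (ℕ × ℕ) → Finset (ℕ × ℕ) := fun F =>
    (UU N α).filter fun x => ((EE N F).card : ℝ) < s * L ∧ L / 5 ≤ (cnt (EE N F) x.1 x.2 : ℝ) with hT
  have hB1 : (1 : ℝ) ≤ (N : ℝ) ^ (2 * α - 1 - e) := Real.one_le_rpow (by linarith) (by linarith)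
  have hBe : (N : ℝ) ^ (2 * α - 1 - e) = (N : ℝ) ^ (2 * α - 1) * q := by
    rw [hq, ← Real.rpow_add hN0]
    congr 1
  refine (EX_count (UU N α) _ M m0 id T (((N : ℝ) ^ (2 * α - 1 - e)) ^ M) ?_ ?_).trans
    (EX_final N hN α hα1 c δ (2 * α - 1 - e) hc0 hc M m0 hm0le)
  · intro A hA
    rw [mem_filter, mem_powerset] at hA
    obtain ⟨hAU, hAM, hAl⟩ := hA
    refine ⟨hAM, ?_⟩
    obtain ⟨F, hFA, hF1, hF2, hF3⟩ := EX_lossy N (by omega) α hα1 hL A hAU s hAl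
    refine ⟨F, hFA.trans hAU, Nat.le_floor hF1, by rw [image_id], by rw [image_id]; exact hFA, ?_⟩
    intro x hx
    rw [mem_sdiff] at hx
    rw [hT, mem_filter]
    exact ⟨hAU hx.1, hF2, hF3 x hx.1⟩
  · intro F _ hFm
    have hk : (F.card : ℝ) ≤ M / 2 := by
      have h1 : (F.card : ℝ) ≤ m0 := by exact_mod_cast hFm
      have h2 : 5 * (c * M) ≤ (M : ℝ) / 2 := by
        nlinarith
      linarith
    have hk2 : 2 * F.card ≤ M := by
      have : 2 * (F.card : ℝ) ≤ M := by linarith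
      exact_mod_cast this
    refine EX_choose (T F).card (M - F.card) M (2500 * (s * (N : ℝ) ^ (2 * α - 1))) _ ?_ (by omega)
      (by omega) hM hB1 ?_
    · by_cases hE : ((EE N F).card : ℝ) < s * L
      · have hEc : ((EE N F).card : ℝ) ≤ (N : ℝ) / 20 := by
          have hPL : (N : ℝ) ^ α * L = N := by
            rw [hLd, ← Real.rpow_add hN0, add_sub_cancel, Real.rpow_one]
          have h2 : s * L ≤ c * M * L := by gcongr
          have h3 : c * M * L ≤ c * (2 * (N : ℝ) ^ α) * L := by gcongr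
          have h4 : c * (2 * (N : ℝ) ^ α) * L = 2 * c * N := by
            calc c * (2 * (N : ℝ) ^ α) * L = 2 * c * ((N : ℝ) ^ α * L) := by ring
              _ = 2 * c * N := by rw [hPL]
          nlinarith
        refine (EX_few N (by omega) α hα hα1 (EE N F) (EX_EE_sub N F) hEc (T F) (filter_subset _ _)
          (fun x hx => ((mem_filter.1 hx).2).2)).trans ?_
        have hq : (0 : ℝ) ≤ (N : ℝ) ^ (2 * α - 1) / L := by positivity
        have h5 : ((EE N F).card : ℝ) * ((N : ℝ) ^ (2 * α - 1) / L) ≤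
            s * L * ((N : ℝ) ^ (2 * α - 1) / L) := mul_le_mul_of_nonneg_right hE.le hq
        have h6 : s * L * ((N : ℝ) ^ (2 * α - 1) / L) = s * (N : ℝ) ^ (2 * α - 1) := by
          field_simp
        rw [h6] at h5
        linarith
      · have h7 : T F = ∅ := by
          rw [hT]
          exact Finset.filter_false_of_mem fun x _ h => hE h.1
        rw [h7]
        simp only [card_empty, Nat.cast_zero]
        positivity
    · rw [hBe, hsd]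
      have h8 : 15000 * c * (M * ((N : ℝ) ^ (2 * α - 1) * q)) ≤ 1 * (M * ((N : ℝ) ^ (2 * α - 1) * q)) :=
        mul_le_mul_of_nonneg_right (by linarith) (by positivity)
      linarith

/-- Sets of primes. -/
theorem EX_B (α : ℝ) (hα : 1 / 2 < α) (hα1 : α < 1) (c δ : ℝ)
    (hδ : 0 < δ) (hc0 : 0 < c) (hc : 30 * c ≤ δ) (hc1 : c ≤ 1 / 15000) :
    ∃ N₀ : ℕ, ∀ N : ℕ, N₀ ≤ N → ∀ e : ℝ, 0 ≤ e → e ≤ α - 1 / 2 → ∀ M : ℕ, 1 ≤ M →
    ({Q : Finset ℕ | Q.card = M ∧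
      (∀ p ∈ Q, p.Prime ∧ (N : ℝ) ^ α ≤ (p : ℝ) ∧ (p : ℝ) < 2 * (N : ℝ) ^ α) ∧
      ∃ a : (p : ℕ) → ZMod p, ((EE N (gr Q a)).card : ℝ) < c * M * (N : ℝ) ^ (1 - α - e)}.ncard : ℝ) ≤
      (N : ℝ) ^ ((α - 1 / 2 - e + δ) * M) := by
  classical
  obtain ⟨N₁, hN₁⟩ := EX_rt α hα hα1 (δ / 2) (by linarith)
  have ht3 : Filter.Tendsto (fun N : ℕ => (N : ℝ) ^ (1 - α)) Filter.atTop Filter.atTop :=
    (tendsto_rpow_atTop (by linarith)).comp tendsto_natCast_atTop_atTop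
  obtain ⟨N₂, hN₂⟩ := Filter.eventually_atTop.mp (ht3.eventually_ge_atTop 10)
  refine ⟨max N₁ (max N₂ 5), fun N hN e he he2 M hM => ?_⟩
  have hN1 : N₁ ≤ N := by omega
  have hL : 10 ≤ (N : ℝ) ^ (1 - α) := hN₂ N (by omega)
  have hN5 : 5 ≤ N := by omega
  have hNR : (5 : ℝ) ≤ N := by exact_mod_cast hN5
  have hN0 : (0 : ℝ) < N := by linarith
  have hMR : (1 : ℝ) ≤ M := by exact_mod_cast hM
  set L : ℝ := (N : ℝ) ^ (1 - α) with hLd
  have hL0 : 0 < L := by linarith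
  set q : ℝ := (N : ℝ) ^ (-e) with hq
  have hq0 : 0 < q := Real.rpow_pos_of_pos hN0 _
  have hq1 : q ≤ 1 := Real.rpow_le_one_of_one_le_of_nonpos (by linarith) (by linarith)
  have hLe : (N : ℝ) ^ (1 - α - e) = L * q := by
    rw [hLd, hq, ← Real.rpow_add hN0]
    congr 1
  set s : ℝ := c * M * q with hsd
  have hcM0 : 0 < c * M := by positivity
  have hs0 : 0 < s := by positivity
  have hsc : s ≤ c * M := by
    rw [hsd]
    exact mul_le_of_le_one_right hcM0.le hq1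
  have hsL : c * M * (N : ℝ) ^ (1 - α - e) = s * L := by
    rw [hLe, hsd]
    ring
  rw [hsL]
  set m0 : ℕ := ⌊5 * s⌋₊ with hm0
  have hm0le : (m0 : ℝ) ≤ 5 * (c * M) := (Nat.floor_le (by linarith)).trans (by linarith)
  set Pr := dyadicPrimes ((N : ℝ) ^ α) with hPr
  set S : Finset (Finset ℕ) := Pr.powerset.filter fun Q => Q.card = M ∧
    ∃ a : (p : ℕ) → ZMod p, ((EE N (gr Q a)).card : ℝ) < s * L with hS
  have hset : {Q : Finset ℕ | Q.card = M ∧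
      (∀ p ∈ Q, p.Prime ∧ (N : ℝ) ^ α ≤ (p : ℝ) ∧ (p : ℝ) < 2 * (N : ℝ) ^ α) ∧
      ∃ a : (p : ℕ) → ZMod p, ((EE N (gr Q a)).card : ℝ) < s * L} = (S : Set (Finset ℕ)) := by
    ext Q
    rw [Finset.mem_coe, hS, mem_filter, mem_powerset]
    constructor
    · rintro ⟨h1, h2, h3⟩
      exact ⟨fun p hp => mem_dyadicPrimes.2 (h2 p hp), h1, h3⟩
    · rintro ⟨h1, h2, h3⟩
      exact ⟨h2, fun p hp => mem_dyadicPrimes.1 (h1 hp), h3⟩
  rw [hset, Set.ncard_coe_finset]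
  set T : Finset (ℕ × ℕ) → Finset ℕ := fun F =>
    Pr.filter fun p => ((EE N F).card : ℝ) < s * L ∧ ∃ d < p, L / 5 ≤ (cnt (EE N F) p d : ℝ) with hT
  have hB1 : (1 : ℝ) ≤ (N : ℝ) ^ (α - 1 / 2 - e + δ / 2) := Real.one_le_rpow (by linarith) (by linarith)
  have hBe : (N : ℝ) ^ (α - 1 / 2 - e + δ / 2) = (N : ℝ) ^ (α - 1 / 2 + δ / 2) * q := by
    rw [hq, ← Real.rpow_add hN0]
    congr 1
    ring
  have hfin := EX_final N hN5 α hα1 c δ (α - 1 / 2 - e + δ / 2) hc0 hc M m0 hm0le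
  have hexp : (α - 1 / 2 - e + δ / 2 + δ / 2) * M = (α - 1 / 2 - e + δ) * M := by ring
  rw [hexp] at hfin
  refine (EX_count (UU N α) S M m0 Prod.fst T (((N : ℝ) ^ (α - 1 / 2 - e + δ / 2)) ^ M) ?_ ?_).trans hfin
  · intro Q hQ
    rw [hS, mem_filter, mem_powerset] at hQ
    obtain ⟨hQP, hQM, a, ha⟩ := hQ
    refine ⟨hQM, ?_⟩
    have hAU : gr Q a ⊆ UU N α := by
      intro x hx
      unfold gr at hx
      obtain ⟨p, hp, rfl⟩ := mem_image.1 hx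
      rw [EX_mem_UU N (by omega) α hα1]
      have h1 := mem_dyadicPrimes.1 (hQP hp)
      have : NeZero p := ⟨h1.1.pos.ne'⟩
      exact ⟨h1, ZMod.val_lt _⟩
    obtain ⟨F, hFA, hF1, hF2, hF3⟩ := EX_lossy N (by omega) α hα1 hL (gr Q a) hAU s ha
    refine ⟨F, hFA.trans hAU, Nat.le_floor hF1, EX_gr_inj Q a F hFA, ?_, ?_⟩
    · calc F.image Prod.fst ⊆ (gr Q a).image Prod.fst := image_subset_image hFA
        _ = Q := EX_gr_fst Q a
    · intro p hp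
      rw [mem_sdiff] at hp
      have hmem : (p, (a p).val) ∈ gr Q a := mem_image_of_mem _ hp.1
      have h1 := mem_dyadicPrimes.1 (hQP hp.1)
      have : NeZero p := ⟨h1.1.pos.ne'⟩
      rw [hT, mem_filter]
      exact ⟨hQP hp.1, hF2, (a p).val, ZMod.val_lt _, hF3 _ hmem⟩
  · intro F _ hFm
    have hk : (F.card : ℝ) ≤ M / 2 := by
      have h1 : (F.card : ℝ) ≤ m0 := by exact_mod_cast hFm
      have h2 : 5 * (c * M) ≤ (M : ℝ) / 2 := by
        nlinarith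
      linarith
    have hk2 : 2 * F.card ≤ M := by
      have : 2 * (F.card : ℝ) ≤ M := by linarith
      exact_mod_cast this
    refine EX_choose (T F).card (M - F.card) M (s * (N : ℝ) ^ (α - 1 / 2 + δ / 2)) _ ?_ (by omega)
      (by omega) hM hB1 ?_
    · by_cases hE : ((EE N F).card : ℝ) < s * L
      · refine (hN₁ N hN1 (EE N F) (EX_EE_sub N F) (T F) (fun p hp => ?_)).trans ?_
        · obtain ⟨h1, -, d, hd, h2⟩ := mem_filter.1 hp
          have h3 := mem_dyadicPrimes.1 h1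
          exact ⟨h3.1, h3.2.1, h3.2.2, d, hd, h2⟩
        · have hq : (0 : ℝ) ≤ (N : ℝ) ^ (δ / 2 + 2 * α - 3 / 2) := Real.rpow_nonneg hN0.le _
          have h5 : (N : ℝ) ^ (δ / 2 + 2 * α - 3 / 2) * ((EE N F).card : ℝ) ≤
              (N : ℝ) ^ (δ / 2 + 2 * α - 3 / 2) * (s * L) := mul_le_mul_of_nonneg_left hE.le hq
          refine h5.trans (le_of_eq ?_)
          calc (N : ℝ) ^ (δ / 2 + 2 * α - 3 / 2) * (s * L)
              = s * ((N : ℝ) ^ (δ / 2 + 2 * α - 3 / 2) * L) := by ring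
            _ = s * (N : ℝ) ^ (α - 1 / 2 + δ / 2) := by
                rw [hLd, ← Real.rpow_add hN0]
                congr 2
                ring
      · have h7 : T F = ∅ := by
          rw [hT]
          exact Finset.filter_false_of_mem fun x _ h => hE h.1
        rw [h7]
        simp only [card_empty, Nat.cast_zero]
        positivity
    · rw [hBe, hsd]
      have h8 : 6 * c * (M * ((N : ℝ) ^ (α - 1 / 2 + δ / 2) * q)) ≤ 1 * (M * ((N : ℝ) ^ (α - 1 / 2 + δ / 2) * q)) :=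
        mul_le_mul_of_nonneg_right (by linarith) (by positivity)
      linarith

end Pool.Agent.EX
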