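import Pool.Agent.helper49.EX.Core

/-!
# MP_bb5cc8_nt, project EX: the four clauses
-/

set_option autoImplicit false

namespace Pool.Agent.EX

open Finset Pool.Agent.helper86

theorem EX_gr_inj2 (N : ℕ) (α : ℝ) : Set.InjOn (fun x : Finset ℕ × ((p : ℕ) → ZMod p) => gr x.1 x.2)
    {x | (∀ p ∈ x.1, p.Prime ∧ (N : ℝ) ^ α ≤ (p : ℝ) ∧ (p : ℝ) < 2 * (N : ℝ) ^ α) ∧ ∀ p ∉ x.1, x.2 p = 0} := by
  rintro ⟨Q, a⟩ ⟨h1, h2⟩ ⟨Q', a'⟩ ⟨h1', h2'⟩ h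
  simp only at h h1 h2 h1' h2'
  have hQ : Q = Q' := by
    rw [← EX_gr_fst Q a, ← EX_gr_fst Q' a', h]
  subst hQ
  have ha : a = a' := by
    funext p
    by_cases hp : p ∈ Q
    · have h3 : (p, (a p).val) ∈ gr Q a' := by
        rw [← h]
        exact mem_image_of_mem _ hp
      unfold gr at h3
      obtain ⟨q, hq, h4⟩ := mem_image.1 h3
      have h5 := Prod.mk.inj h4
      obtain ⟨h6, h7⟩ := h5
      subst h6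
      have : NeZero q := ⟨(h1 q hp).1.pos.ne'⟩
      exact (ZMod.val_injective q h7).symm
    · rw [h2 p hp, h2' p hp]
  rw [ha]

/-- Clause 2. -/
theorem EX_two (N : ℕ) (hN : 5 ≤ N) (α : ℝ) (hα : 1 / 2 < α) (hα1 : α < 1) (hL : 10 ≤ (N : ℝ) ^ (1 - α))
    (c δ e : ℝ) (he : 0 ≤ e) (he2 : e ≤ 2 * α - 1) (hδ : 0 < δ) (hc0 : 0 < c) (hc : 30 * c ≤ δ) (hc1 : c ≤ 1 / 15000) (M : ℕ) :
    {x : Finset ℕ × ((p : ℕ) → ZMod p) | x.1.card = M ∧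
        (∀ p ∈ x.1, p.Prime ∧ (N : ℝ) ^ α ≤ (p : ℝ) ∧ (p : ℝ) < 2 * (N : ℝ) ^ α) ∧
        (∀ p ∉ x.1, x.2 p = 0) ∧
        ({n : ℕ | 1 ≤ n ∧ n ≤ N ∧ ∃ p ∈ x.1, (n : ZMod p) = x.2 p}.ncard : ℝ) <
          c * M * (N : ℝ) ^ (1 - α - e)}.Finite ∧
    ({x : Finset ℕ × ((p : ℕ) → ZMod p) | x.1.card = M ∧
        (∀ p ∈ x.1, p.Prime ∧ (N : ℝ) ^ α ≤ (p : ℝ) ∧ (p : ℝ) < 2 * (N : ℝ) ^ α) ∧
        (∀ p ∉ x.1, x.2 p = 0) ∧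
        ({n : ℕ | 1 ≤ n ∧ n ≤ N ∧ ∃ p ∈ x.1, (n : ZMod p) = x.2 p}.ncard : ℝ) <
          c * M * (N : ℝ) ^ (1 - α - e)}.ncard : ℝ) ≤ (N : ℝ) ^ ((2 * α - 1 - e + δ) * M) := by
  classical
  have hNR : (5 : ℝ) ≤ N := by exact_mod_cast hN
  have hN0 : (0 : ℝ) < N := by linarith
  set s := {x : Finset ℕ × ((p : ℕ) → ZMod p) | x.1.card = M ∧
        (∀ p ∈ x.1, p.Prime ∧ (N : ℝ) ^ α ≤ (p : ℝ) ∧ (p : ℝ) < 2 * (N : ℝ) ^ α) ∧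
        (∀ p ∉ x.1, x.2 p = 0) ∧
        ({n : ℕ | 1 ≤ n ∧ n ≤ N ∧ ∃ p ∈ x.1, (n : ZMod p) = x.2 p}.ncard : ℝ) <
          c * M * (N : ℝ) ^ (1 - α - e)} with hs
  set t := (UU N α).powerset.filter fun A => A.card = M ∧
      ((EE N A).card : ℝ) < c * M * (N : ℝ) ^ (1 - α - e) with ht
  have hmaps : ∀ x ∈ s, (fun x : Finset ℕ × ((p : ℕ) → ZMod p) => gr x.1 x.2) x ∈ (t : Set (Finset (ℕ × ℕ))) := by
    rintro ⟨Q, a⟩ ⟨h1, h2, h3, h4⟩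
    simp only at h1 h2 h3 h4
    rw [Finset.mem_coe, ht, mem_filter, mem_powerset]
    refine ⟨?_, ?_, ?_⟩
    · intro x hx
      simp only at hx
      unfold gr at hx
      obtain ⟨p, hp, rfl⟩ := mem_image.1 hx
      rw [EX_mem_UU N (by omega) α hα1]
      have : NeZero p := ⟨(h2 p hp).1.pos.ne'⟩
      exact ⟨h2 p hp, ZMod.val_lt _⟩
    · simp only
      rw [EX_gr_card, h1]
    · simp only
      rw [EX_ncard N Q (fun p hp => (h2 p hp).1.pos) a] at h4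
      exact h4
  have hsub : s ⊆ {x : Finset ℕ × ((p : ℕ) → ZMod p) |
      (∀ p ∈ x.1, p.Prime ∧ (N : ℝ) ^ α ≤ (p : ℝ) ∧ (p : ℝ) < 2 * (N : ℝ) ^ α) ∧ ∀ p ∉ x.1, x.2 p = 0} := by
    intro x hx
    exact ⟨hx.2.1, hx.2.2.1⟩
  have hinj : Set.InjOn (fun x : Finset ℕ × ((p : ℕ) → ZMod p) => gr x.1 x.2) s :=
    (EX_gr_inj2 N α).mono hsub
  have hfin : s.Finite := Set.Finite.of_injOn hmaps hinj t.finite_toSet
  refine ⟨hfin, ?_⟩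
  rcases Nat.eq_zero_or_pos M with hM | hM
  · have : s = ∅ := by
      rw [Set.eq_empty_iff_forall_notMem]
      rintro x ⟨-, -, -, h4⟩
      rw [hM, Nat.cast_zero, mul_zero, zero_mul] at h4
      exact absurd h4 (not_lt.2 (Nat.cast_nonneg _))
    rw [this, Set.ncard_empty, Nat.cast_zero]
    exact Real.rpow_nonneg hN0.le _
  by_cases hM2 : (M : ℝ) ≤ 2 * (N : ℝ) ^ α
  · have h1 := Set.ncard_le_ncard_of_injOn _ hmaps hinj t.finite_toSet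
    rw [Set.ncard_coe_finset] at h1
    have h2 := EX_A N hN α hα hα1 hL c δ e he he2 hc0 hc hc1 M hM hM2
    have h3 : (s.ncard : ℝ) ≤ (t.card : ℝ) := by exact_mod_cast h1
    refine h3.trans (h2.trans (Real.rpow_le_rpow_of_exponent_le (by linarith) ?_))
    have : (0 : ℝ) ≤ M := Nat.cast_nonneg _
    nlinarith
  · have : s = ∅ := by
      rw [Set.eq_empty_iff_forall_notMem]
      rintro ⟨Q, a⟩ ⟨h1, h2, -, -⟩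
      simp only at h1 h2
      apply hM2
      have h3 : Q ⊆ dyadicPrimes ((N : ℝ) ^ α) := fun p hp => mem_dyadicPrimes.2 (h2 p hp)
      have h4 : (Q.card : ℝ) ≤ (dyadicPrimes ((N : ℝ) ^ α)).card := by exact_mod_cast card_le_card h3
      rw [← h1]
      exact h4.trans (EX_primes_le N α)
    rw [this, Set.ncard_empty, Nat.cast_zero]
    exact Real.rpow_nonneg hN0.le _

/-- The set of the primes. -/
theorem EX_pr_set (N : ℕ) (α : ℝ) : {p : ℕ | p.Prime ∧ (N : ℝ) ^ α ≤ (p : ℝ) ∧ (p : ℝ) < 2 * (N : ℝ) ^ α} =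
    (dyadicPrimes ((N : ℝ) ^ α) : Set ℕ) := by
  ext p
  rw [Finset.mem_coe, mem_dyadicPrimes]
  rfl

/-- Clause 3. -/
theorem EX_three (N : ℕ) (hN : 5 ≤ N) (α : ℝ) (hα : 1 / 2 < α) (hα1 : α < 1) (hL : 10 ≤ (N : ℝ) ^ (1 - α))
    (c δ e : ℝ) (he : 0 ≤ e) (he2 : e ≤ 2 * α - 1) (hδ : 0 < δ) (hc0 : 0 < c) (hc : 30 * c ≤ δ) (hc1 : c ≤ 1 / 15000)
    (hP : 0.05 * (N : ℝ) ^ α ≤ ((dyadicPrimes ((N : ℝ) ^ α)).card : ℝ) * Real.log N) :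
    {a : (p : ℕ) → ZMod p |
        (∀ p : ℕ, ¬ (p.Prime ∧ (N : ℝ) ^ α ≤ (p : ℝ) ∧ (p : ℝ) < 2 * (N : ℝ) ^ α) → a p = 0) ∧
        ({n : ℕ | 1 ≤ n ∧ n ≤ N ∧ ∃ p : ℕ, p.Prime ∧ (N : ℝ) ^ α ≤ p ∧ (p : ℝ) < 2 * (N : ℝ) ^ α ∧
          (n : ZMod p) = a p}.ncard : ℝ) < 0.05 * c * (N : ℝ) ^ (1 - e) / Real.log N}.Finite ∧
    ({a : (p : ℕ) → ZMod p |
        (∀ p : ℕ, ¬ (p.Prime ∧ (N : ℝ) ^ α ≤ (p : ℝ) ∧ (p : ℝ) < 2 * (N : ℝ) ^ α) → a p = 0) ∧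
        ({n : ℕ | 1 ≤ n ∧ n ≤ N ∧ ∃ p : ℕ, p.Prime ∧ (N : ℝ) ^ α ≤ p ∧ (p : ℝ) < 2 * (N : ℝ) ^ α ∧
          (n : ZMod p) = a p}.ncard : ℝ) < 0.05 * c * (N : ℝ) ^ (1 - e) / Real.log N}.ncard : ℝ) ≤
      (N : ℝ) ^ ((2 * α - 1 - e + δ) *
        {p : ℕ | p.Prime ∧ (N : ℝ) ^ α ≤ (p : ℝ) ∧ (p : ℝ) < 2 * (N : ℝ) ^ α}.ncard) := by
  classical
  have hNR : (5 : ℝ) ≤ N := by exact_mod_cast hN
  have hN0 : (0 : ℝ) < N := by linarith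
  have hlog : 0 < Real.log N := Real.log_pos (by linarith)
  set Pr := dyadicPrimes ((N : ℝ) ^ α) with hPr
  rw [EX_pr_set, Set.ncard_coe_finset]
  obtain ⟨hfin, h2⟩ := EX_two N hN α hα hα1 hL c δ e he he2 hδ hc0 hc hc1 Pr.card
  set s := {a : (p : ℕ) → ZMod p |
        (∀ p : ℕ, ¬ (p.Prime ∧ (N : ℝ) ^ α ≤ (p : ℝ) ∧ (p : ℝ) < 2 * (N : ℝ) ^ α) → a p = 0) ∧
        ({n : ℕ | 1 ≤ n ∧ n ≤ N ∧ ∃ p : ℕ, p.Prime ∧ (N : ℝ) ^ α ≤ p ∧ (p : ℝ) < 2 * (N : ℝ) ^ α ∧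
          (n : ZMod p) = a p}.ncard : ℝ) < 0.05 * c * (N : ℝ) ^ (1 - e) / Real.log N} with hs
  have hinj : Set.InjOn (fun a : (p : ℕ) → ZMod p => (Pr, a)) s := fun a _ b _ h => (Prod.mk.inj h).2
  have hmaps : ∀ a ∈ s, (fun a : (p : ℕ) → ZMod p => (Pr, a)) a ∈ {x : Finset ℕ × ((p : ℕ) → ZMod p) | x.1.card = Pr.card ∧
        (∀ p ∈ x.1, p.Prime ∧ (N : ℝ) ^ α ≤ (p : ℝ) ∧ (p : ℝ) < 2 * (N : ℝ) ^ α) ∧
        (∀ p ∉ x.1, x.2 p = 0) ∧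
        ({n : ℕ | 1 ≤ n ∧ n ≤ N ∧ ∃ p ∈ x.1, (n : ZMod p) = x.2 p}.ncard : ℝ) <
          c * Pr.card * (N : ℝ) ^ (1 - α - e)} := by
    rintro a ⟨h3, h4⟩
    refine ⟨rfl, fun p hp => mem_dyadicPrimes.1 hp, fun p hp => h3 p fun h => hp (mem_dyadicPrimes.2 h), ?_⟩
    simp only
    have h5 : {n : ℕ | 1 ≤ n ∧ n ≤ N ∧ ∃ p : ℕ, p.Prime ∧ (N : ℝ) ^ α ≤ p ∧ (p : ℝ) < 2 * (N : ℝ) ^ α ∧
          (n : ZMod p) = a p} = {n : ℕ | 1 ≤ n ∧ n ≤ N ∧ ∃ p ∈ Pr, (n : ZMod p) = a p} := by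
      ext n
      constructor
      · rintro ⟨h6, h7, p, h8, h9, h10, h11⟩
        exact ⟨h6, h7, p, mem_dyadicPrimes.2 ⟨h8, h9, h10⟩, h11⟩
      · rintro ⟨h6, h7, p, h8, h11⟩
        obtain ⟨h9, h10, h12⟩ := mem_dyadicPrimes.1 h8
        exact ⟨h6, h7, p, h9, h10, h12, h11⟩
    rw [h5] at h4
    refine h4.trans_le ?_
    rw [div_le_iff₀ hlog]
    have h6 : (N : ℝ) ^ (1 - e) = (N : ℝ) ^ α * (N : ℝ) ^ (1 - α - e) := by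
      rw [← Real.rpow_add hN0]
      congr 1
      ring
    have h7 : 0 ≤ c * (N : ℝ) ^ (1 - α - e) := by positivity
    calc 0.05 * c * (N : ℝ) ^ (1 - e) = 0.05 * c * ((N : ℝ) ^ α * (N : ℝ) ^ (1 - α - e)) := by rw [← h6]
      _ = (c * (N : ℝ) ^ (1 - α - e)) * (0.05 * (N : ℝ) ^ α) := by ring
      _ ≤ (c * (N : ℝ) ^ (1 - α - e)) * ((Pr.card : ℝ) * Real.log N) := mul_le_mul_of_nonneg_left hP h7
      _ = c * Pr.card * (N : ℝ) ^ (1 - α - e) * Real.log N := by ring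
  have hfins : s.Finite := Set.Finite.of_injOn hmaps hinj hfin
  refine ⟨hfins, ?_⟩
  have h3 := Set.ncard_le_ncard_of_injOn _ hmaps hinj hfin
  refine le_trans ?_ h2
  exact_mod_cast h3

/-- Clause 4: the first moment. -/
theorem EX_four (N : ℕ) (hN : 1 ≤ N) (α β κ : ℝ) (s : Set ((p : ℕ) → ZMod p)) (hs : s.Finite)
    (hsc : (s.ncard : ℝ) ≤ (N : ℝ) ^ (β * (dyadicPrimes ((N : ℝ) ^ α)).card))
    (F : (p : ℕ) → Finset (ZMod p)) (hF : ∀ p ∈ dyadicPrimes ((N : ℝ) ^ α), ((F p).card : ℝ) ≤ (N : ℝ) ^ κ) :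
    ({x : (p : ℕ) → ZMod p | (∀ p ∉ dyadicPrimes ((N : ℝ) ^ α), x p = 0) ∧
      ∃ a ∈ s, ∀ p ∈ dyadicPrimes ((N : ℝ) ^ α), a p - x p ∈ F p}.ncard : ℝ) ≤
      (N : ℝ) ^ ((β + κ) * (dyadicPrimes ((N : ℝ) ^ α)).card) := by
  classical
  have hN0 : (0 : ℝ) < N := by exact_mod_cast hN
  set Pr := dyadicPrimes ((N : ℝ) ^ α) with hPr
  set g : ((p : ℕ) → ZMod p) × ((p : ℕ) → p ∈ Pr → ZMod p) → ((p : ℕ) → ZMod p) :=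
    fun y p => if h : p ∈ Pr then y.1 p - y.2 p h else 0 with hg
  set D : Set (((p : ℕ) → ZMod p) × ((p : ℕ) → p ∈ Pr → ZMod p)) := s ×ˢ ((Pr.pi F : Finset _) : Set _) with hD
  have hDf : D.Finite := hs.prod (Finset.finite_toSet _)
  have hsub : {x : (p : ℕ) → ZMod p | (∀ p ∉ Pr, x p = 0) ∧ ∃ a ∈ s, ∀ p ∈ Pr, a p - x p ∈ F p} ⊆ g '' D := by
    rintro x ⟨h1, a, ha, h2⟩
    refine ⟨(a, fun p _ => a p - x p), ⟨ha, ?_⟩, ?_⟩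
    · rw [Finset.mem_coe, Finset.mem_pi]
      exact fun p hp => h2 p hp
    · funext p
      rw [hg]
      simp only
      by_cases hp : p ∈ Pr
      · rw [dif_pos hp]
        ring
      · rw [dif_neg hp, h1 p hp]
  have h3 : {x : (p : ℕ) → ZMod p | (∀ p ∉ Pr, x p = 0) ∧ ∃ a ∈ s, ∀ p ∈ Pr, a p - x p ∈ F p}.ncard ≤
      s.ncard * ∏ p ∈ Pr, (F p).card := by
    refine (Set.ncard_le_ncard hsub (hDf.image g)).trans ((Set.ncard_image_le hDf).trans ?_)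
    rw [hD, Set.ncard_prod, Set.ncard_coe_finset, Finset.card_pi]
  have h4 : ((s.ncard * ∏ p ∈ Pr, (F p).card : ℕ) : ℝ) ≤ (N : ℝ) ^ (β * Pr.card) * ((N : ℝ) ^ κ) ^ Pr.card := by
    push_cast
    refine mul_le_mul hsc ?_ (by positivity) (Real.rpow_nonneg hN0.le _)
    calc ∏ p ∈ Pr, ((F p).card : ℝ) ≤ ∏ _p ∈ Pr, (N : ℝ) ^ κ :=
          Finset.prod_le_prod (fun _ _ => Nat.cast_nonneg _) hF
      _ = ((N : ℝ) ^ κ) ^ Pr.card := by rw [Finset.prod_const]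
  have h5 : (N : ℝ) ^ (β * Pr.card) * ((N : ℝ) ^ κ) ^ Pr.card = (N : ℝ) ^ ((β + κ) * Pr.card) := by
    rw [← Real.rpow_natCast, ← Real.rpow_mul hN0.le, ← Real.rpow_add hN0]
    congr 1
    ring
  rw [← h5]
  refine le_trans ?_ h4
  exact_mod_cast h3

end Pool.Agent.EX
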