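import Pool.Agent.helper32.EX.SpecD

/-!
# Row ex:NWE of project ex (MP_561ff4_al): monomial elements over every element of the Weyl group
-/

set_option autoImplicit false
set_option linter.unusedVariables false
set_option linter.unusedSectionVars false

namespace Pool.Agent.EX

theorem NWE (hNNM : NNM_stmt) (hMMU : MMU_stmt) : NWE_stmt := by
  intro n C hC F _ w hw
  obtain ⟨h1, h2, h3⟩ := hMMU C F
  refine Subgroup.closure_induction (p := fun w _ => ∃ g : LV C F ≃ₗ[F] LV C F, IsN g w) ?_ ?_ ?_ ?_ hw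
  · rintro _ ⟨i, rfl⟩
    obtain ⟨k1, k2⟩ := hNNM C F (sm C i) 1 one_ne_zero
    exact ⟨nn (sm C i) 1, k2, Subgroup.subset_closure ⟨i, rfl⟩, k1⟩
  · exact ⟨1, Subgroup.one_mem _, Subgroup.one_mem _, h3⟩
  · rintro w w' _ _ ⟨g, k1, k2, k3⟩ ⟨g', k1', k2', k3'⟩
    exact ⟨g * g', Subgroup.mul_mem _ k1 k1', Subgroup.mul_mem _ k2 k2', h1 g g' w w' k3 k3'⟩
  · rintro w _ ⟨g, k1, k2, k3⟩
    exact ⟨g⁻¹, Subgroup.inv_mem _ k1, Subgroup.inv_mem _ k2, h2 g w k3⟩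

end Pool.Agent.EX
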