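import Pool.Agent.helper49.EX.Main

/-!
MP_bb5cc8_nt, Exceptions: the four clauses (sets `Q`, pairs `(Q, a)`, choices `a`, neighbourhoods of
choices `x`), from which the hand-in is read off.
-/

set_option autoImplicit false

namespace Pool.Agent.EX

theorem EX_res (α : ℝ) (hα : 1 / 2 < α) (hα1 : α < 1) (δ : ℝ) (hδ : 0 < δ) :
    ∃ c : ℝ, 0 < c ∧ ∃ N₀ : ℕ, ∀ N : ℕ, N₀ ≤ N → ∀ ε : ℝ, 0 ≤ ε →
      (ε ≤ α - 1 / 2 → ∀ (M : ℕ) (T : Finset (Finset ℕ)),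
        (∀ Q ∈ T, Q.card = M ∧
          (∀ p ∈ Q, p.Prime ∧ (N : ℝ) ^ α ≤ (p : ℝ) ∧ (p : ℝ) < 2 * (N : ℝ) ^ α) ∧
          ∃ a : (p : ℕ) → ZMod p,
            ({n : ℕ | 1 ≤ n ∧ n ≤ N ∧ ∃ p ∈ Q, (n : ZMod p) = a p}.ncard : ℝ) <
              c * M * (N : ℝ) ^ (1 - α - ε)) →
        (T.card : ℝ) ≤ (N : ℝ) ^ ((α - 1 / 2 - ε + δ) * M)) ∧
      (ε ≤ 2 * α - 1 → ∀ (M : ℕ) (T : Finset (Finset ℕ × ((p : ℕ) → ZMod p))),
        (∀ x ∈ T, x.1.card = M ∧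
          (∀ p ∈ x.1, p.Prime ∧ (N : ℝ) ^ α ≤ (p : ℝ) ∧ (p : ℝ) < 2 * (N : ℝ) ^ α) ∧
          (∀ p ∉ x.1, x.2 p = 0) ∧
          ({n : ℕ | 1 ≤ n ∧ n ≤ N ∧ ∃ p ∈ x.1, (n : ZMod p) = x.2 p}.ncard : ℝ) <
            c * M * (N : ℝ) ^ (1 - α - ε)) →
        (T.card : ℝ) ≤ (N : ℝ) ^ ((2 * α - 1 - ε + δ) * M)) ∧
      (ε ≤ 2 * α - 1 → ∀ T : Finset ((p : ℕ) → ZMod p),
        (∀ a ∈ T,
          (∀ p : ℕ, ¬ (p.Prime ∧ (N : ℝ) ^ α ≤ (p : ℝ) ∧ (p : ℝ) < 2 * (N : ℝ) ^ α) → a p = 0) ∧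
          ({n : ℕ | 1 ≤ n ∧ n ≤ N ∧ ∃ p : ℕ, p.Prime ∧ (N : ℝ) ^ α ≤ p ∧ (p : ℝ) < 2 * (N : ℝ) ^ α ∧
            (n : ZMod p) = a p}.ncard : ℝ) < c * (N : ℝ) ^ (1 - ε) / Real.log N) →
        (T.card : ℝ) ≤ (N : ℝ) ^ ((2 * α - 1 - ε + δ) *
          {p : ℕ | p.Prime ∧ (N : ℝ) ^ α ≤ (p : ℝ) ∧ (p : ℝ) < 2 * (N : ℝ) ^ α}.ncard)) ∧
      (ε ≤ 2 * α - 1 → ∀ F : (p : ℕ) → Finset (ZMod p),
        (∀ p : ℕ, p.Prime ∧ (N : ℝ) ^ α ≤ (p : ℝ) ∧ (p : ℝ) < 2 * (N : ℝ) ^ α →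
          ((F p).card : ℝ) ≤ (N : ℝ) ^ (1 - α + ε - 2 * δ)) →
        ∀ T : Finset ((p : ℕ) → ZMod p),
        (∀ x ∈ T,
          (∀ p : ℕ, ¬ (p.Prime ∧ (N : ℝ) ^ α ≤ (p : ℝ) ∧ (p : ℝ) < 2 * (N : ℝ) ^ α) → x p = 0) ∧
          ∃ a : (p : ℕ) → ZMod p,
            (∀ p : ℕ, p.Prime ∧ (N : ℝ) ^ α ≤ (p : ℝ) ∧ (p : ℝ) < 2 * (N : ℝ) ^ α →
              a p - x p ∈ F p) ∧
            ({n : ℕ | 1 ≤ n ∧ n ≤ N ∧ ∃ p : ℕ, p.Prime ∧ (N : ℝ) ^ α ≤ p ∧ (p : ℝ) < 2 * (N : ℝ) ^ α ∧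
              (n : ZMod p) = a p}.ncard : ℝ) < c * (N : ℝ) ^ (1 - ε) / Real.log N) →
        (T.card : ℝ) ≤ (N : ℝ) ^ ((α - δ) *
          {p : ℕ | p.Prime ∧ (N : ℝ) ^ α ≤ (p : ℝ) ∧ (p : ℝ) < 2 * (N : ℝ) ^ α}.ncard)) := by
  classical
  set c : ℝ := min (1 / 15000) (δ / 30) with hc
  have hc0 : 0 < c := lt_min (by norm_num) (by linarith)
  have hc1 : c ≤ 1 / 15000 := min_le_left _ _
  have hc2 : 30 * c ≤ δ := by
    have : c ≤ δ / 30 := min_le_right _ _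
    linarith
  obtain ⟨N₁, h1⟩ := Pool.Agent.EX.EX_B α hα hα1 c δ hδ hc0 hc2 hc1
  obtain ⟨N₂, h2⟩ := Pool.Agent.EX.EX_primes α (by linarith) hα1
  have ht3 : Filter.Tendsto (fun N : ℕ => (N : ℝ) ^ (1 - α)) Filter.atTop Filter.atTop :=
    (tendsto_rpow_atTop (by linarith)).comp tendsto_natCast_atTop_atTop
  obtain ⟨N₃, h3⟩ := Filter.eventually_atTop.mp (ht3.eventually_ge_atTop 10)
  refine ⟨0.05 * c, by positivity, max N₁ (max N₂ (max N₃ 5)), fun N hN e he => ?_⟩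
  have hN5 : 5 ≤ N := by omega
  have hNR : (5 : ℝ) ≤ N := by exact_mod_cast hN5
  have hN0 : (0 : ℝ) < N := by linarith
  have hL : 10 ≤ (N : ℝ) ^ (1 - α) := h3 N (by omega)
  have hlog : 0 < Real.log N := Real.log_pos (by linarith)
  have hle : ∀ M : ℕ, 0.05 * c * M * (N : ℝ) ^ (1 - α - e) ≤ c * M * (N : ℝ) ^ (1 - α - e) := by
    intro M
    have : (0 : ℝ) ≤ c * M * (N : ℝ) ^ (1 - α - e) := by positivity
    linarith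
  set s := {a : (p : ℕ) → ZMod p |
        (∀ p : ℕ, ¬ (p.Prime ∧ (N : ℝ) ^ α ≤ (p : ℝ) ∧ (p : ℝ) < 2 * (N : ℝ) ^ α) → a p = 0) ∧
        ({n : ℕ | 1 ≤ n ∧ n ≤ N ∧ ∃ p : ℕ, p.Prime ∧ (N : ℝ) ^ α ≤ p ∧ (p : ℝ) < 2 * (N : ℝ) ^ α ∧
          (n : ZMod p) = a p}.ncard : ℝ) < 0.05 * c * (N : ℝ) ^ (1 - e) / Real.log N} with hs
  refine ⟨?_, ?_, ?_, ?_⟩
  · intro he2 M T hT
    rcases Nat.eq_zero_or_pos M with hM | hM
    · have hTe : T = ∅ := by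
        rw [Finset.eq_empty_iff_forall_notMem]
        intro Q hQ
        obtain ⟨-, -, a, ha⟩ := hT Q hQ
        rw [hM, Nat.cast_zero, mul_zero, zero_mul] at ha
        exact absurd ha (not_lt.2 (Nat.cast_nonneg _))
      rw [hTe, Finset.card_empty, Nat.cast_zero]
      exact Real.rpow_nonneg hN0.le _
    · have h4 := h1 N (by omega) e he he2 M hM
      refine le_trans ?_ h4
      have hsub : (T : Set (Finset ℕ)) ⊆ {Q : Finset ℕ | Q.card = M ∧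
          (∀ p ∈ Q, p.Prime ∧ (N : ℝ) ^ α ≤ (p : ℝ) ∧ (p : ℝ) < 2 * (N : ℝ) ^ α) ∧
          ∃ a : (p : ℕ) → ZMod p, ((Pool.Agent.EX.EE N (Pool.Agent.EX.gr Q a)).card : ℝ) <
            c * M * (N : ℝ) ^ (1 - α - e)} := by
        intro Q hQ
        obtain ⟨h5, h6, a, ha⟩ := hT Q hQ
        refine ⟨h5, h6, a, ?_⟩
        rw [Pool.Agent.EX.EX_ncard N Q (fun p hp => (h6 p hp).1.pos) a] at ha
        exact ha.trans_le (hle M)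
      have hfin : {Q : Finset ℕ | Q.card = M ∧
          (∀ p ∈ Q, p.Prime ∧ (N : ℝ) ^ α ≤ (p : ℝ) ∧ (p : ℝ) < 2 * (N : ℝ) ^ α) ∧
          ∃ a : (p : ℕ) → ZMod p, ((Pool.Agent.EX.EE N (Pool.Agent.EX.gr Q a)).card : ℝ) <
            c * M * (N : ℝ) ^ (1 - α - e)}.Finite := by
        refine ((Pool.Agent.helper86.dyadicPrimes ((N : ℝ) ^ α)).powerset.finite_toSet).subset ?_
        rintro Q ⟨-, h6, -⟩
        rw [Finset.mem_coe, Finset.mem_powerset]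
        exact fun p hp => Pool.Agent.helper86.mem_dyadicPrimes.2 (h6 p hp)
      have h5 := Set.ncard_le_ncard hsub hfin
      rw [Set.ncard_coe_finset] at h5
      exact_mod_cast h5
  · intro he2 M T hT
    obtain ⟨hfin, h4⟩ := Pool.Agent.EX.EX_two N hN5 α hα hα1 hL c δ e he he2 hδ hc0 hc2 hc1 M
    refine le_trans ?_ h4
    have hsub : (T : Set (Finset ℕ × ((p : ℕ) → ZMod p))) ⊆ {x : Finset ℕ × ((p : ℕ) → ZMod p) | x.1.card = M ∧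
        (∀ p ∈ x.1, p.Prime ∧ (N : ℝ) ^ α ≤ (p : ℝ) ∧ (p : ℝ) < 2 * (N : ℝ) ^ α) ∧
        (∀ p ∉ x.1, x.2 p = 0) ∧
        ({n : ℕ | 1 ≤ n ∧ n ≤ N ∧ ∃ p ∈ x.1, (n : ZMod p) = x.2 p}.ncard : ℝ) <
          c * M * (N : ℝ) ^ (1 - α - e)} := by
      intro x hx
      obtain ⟨h5, h6, h7, h8⟩ := hT x hx
      exact ⟨h5, h6, h7, h8.trans_le (hle M)⟩
    have h5 := Set.ncard_le_ncard hsub hfin
    rw [Set.ncard_coe_finset] at h5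
    exact_mod_cast h5
  · intro he2 T hT
    obtain ⟨hsf, hsc⟩ := Pool.Agent.EX.EX_three N hN5 α hα hα1 hL c δ e he he2 hδ hc0 hc2 hc1 (h2 N (by omega))
    refine le_trans ?_ hsc
    have hsub : (T : Set ((p : ℕ) → ZMod p)) ⊆ s := fun a ha => hT a ha
    have h5 := Set.ncard_le_ncard hsub hsf
    rw [Set.ncard_coe_finset] at h5
    exact_mod_cast h5
  · intro he2 F hF T hT
    obtain ⟨hsf, hsc⟩ := Pool.Agent.EX.EX_three N hN5 α hα hα1 hL c δ e he he2 hδ hc0 hc2 hc1 (h2 N (by omega))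
    rw [Pool.Agent.EX.EX_pr_set, Set.ncard_coe_finset] at hsc ⊢
    set Pr := Pool.Agent.helper86.dyadicPrimes ((N : ℝ) ^ α) with hPr
    have h4 := Pool.Agent.EX.EX_four N (by omega) α (2 * α - 1 - e + δ) (1 - α + e - 2 * δ) s hsf hsc F
      (fun p hp => hF p (Pool.Agent.helper86.mem_dyadicPrimes.1 hp))
    have hexp : (2 * α - 1 - e + δ + (1 - α + e - 2 * δ)) * (Pr.card : ℝ) = (α - δ) * Pr.card := by ring
    rw [hexp] at h4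
    refine le_trans ?_ h4
    have hsub : (T : Set ((p : ℕ) → ZMod p)) ⊆ {x : (p : ℕ) → ZMod p | (∀ p ∉ Pr, x p = 0) ∧
      ∃ a ∈ s, ∀ p ∈ Pr, a p - x p ∈ F p} := by
      intro x hx
      obtain ⟨h5, a, h6, h7⟩ := hT x hx
      refine ⟨fun p hp => h5 p fun h => hp (Pool.Agent.helper86.mem_dyadicPrimes.2 h), ?_⟩
      obtain ⟨a', hp1, hp0⟩ : ∃ a' : (p : ℕ) → ZMod p, (∀ p ∈ Pr, a' p = a p) ∧ ∀ p ∉ Pr, a' p = 0 :=
        ⟨fun p => if p ∈ Pr then a p else 0, fun p hp => if_pos hp, fun p hp => if_neg hp⟩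
      refine ⟨a', ⟨?_, ?_⟩, ?_⟩
      · intro p hp
        exact hp0 p fun h => hp (Pool.Agent.helper86.mem_dyadicPrimes.1 h)
      · have h8 : {n : ℕ | 1 ≤ n ∧ n ≤ N ∧ ∃ p : ℕ, p.Prime ∧ (N : ℝ) ^ α ≤ p ∧ (p : ℝ) < 2 * (N : ℝ) ^ α ∧
              (n : ZMod p) = a' p} =
            {n : ℕ | 1 ≤ n ∧ n ≤ N ∧ ∃ p : ℕ, p.Prime ∧ (N : ℝ) ^ α ≤ p ∧ (p : ℝ) < 2 * (N : ℝ) ^ α ∧
              (n : ZMod p) = a p} := by
          ext n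
          constructor
          · rintro ⟨h9, h10, p, h11, h12, h13, h14⟩
            rw [hp1 p (Pool.Agent.helper86.mem_dyadicPrimes.2 ⟨h11, h12, h13⟩)] at h14
            exact ⟨h9, h10, p, h11, h12, h13, h14⟩
          · rintro ⟨h9, h10, p, h11, h12, h13, h14⟩
            refine ⟨h9, h10, p, h11, h12, h13, ?_⟩
            rw [hp1 p (Pool.Agent.helper86.mem_dyadicPrimes.2 ⟨h11, h12, h13⟩)]
            exact h14
        rw [h8]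
        exact h7
      · intro p hp
        rw [hp1 p hp]
        exact h6 p (Pool.Agent.helper86.mem_dyadicPrimes.1 hp)
    have hfin2 : {x : (p : ℕ) → ZMod p | (∀ p ∉ Pr, x p = 0) ∧
      ∃ a ∈ s, ∀ p ∈ Pr, a p - x p ∈ F p}.Finite := by
      have hinj : Set.InjOn (fun x : (p : ℕ) → ZMod p => fun p (_ : p ∈ Pr) => x p)
          {x : (p : ℕ) → ZMod p | (∀ p ∉ Pr, x p = 0) ∧ ∃ a ∈ s, ∀ p ∈ Pr, a p - x p ∈ F p} := by
        rintro x ⟨hx, -⟩ y ⟨hy, -⟩ hxy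
        funext p
        by_cases hp : p ∈ Pr
        · exact congrFun (congrFun hxy p) hp
        · rw [hx p hp, hy p hp]
      have hmaps : ∀ x ∈ {x : (p : ℕ) → ZMod p | (∀ p ∉ Pr, x p = 0) ∧
          ∃ a ∈ s, ∀ p ∈ Pr, a p - x p ∈ F p}, (fun p (_ : p ∈ Pr) => x p) ∈
          ((Pr.pi fun p => (Finset.range p).image fun c : ℕ => (c : ZMod p) : Finset _) : Set _) := by
        intro x _
        rw [Finset.mem_coe, Finset.mem_pi]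
        intro p hp
        rw [Finset.mem_image]
        have : NeZero p := ⟨(Pool.Agent.helper86.mem_dyadicPrimes.1 hp).1.pos.ne'⟩
        exact ⟨(x p).val, Finset.mem_range.2 (ZMod.val_lt _), ZMod.natCast_zmod_val _⟩
      exact Set.Finite.of_injOn hmaps hinj (Finset.finite_toSet _)
    have h5 := Set.ncard_le_ncard hsub hfin2
    rw [Set.ncard_coe_finset] at h5
    exact_mod_cast h5

end Pool.Agent.EX
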